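import Mathlib
import Pool.Agent.X286.Win.Gen
import Pool.Agent.Y854.GM.WinV

/-!
# Windows which contain no exception, for properties with a level and `B ^ ε` exceptions up to height `B`
-/

set_option autoImplicit false

namespace Pool.Agent.X134.Win

open MeasureTheory Filter Topology
open Pool.Agent.X286.Win (ExpLe)

/-- the hypothesis: for every `ε > 0` and `B ≥ 1` there is a level `N ≤ C B ^ ε` such that all elements of height
at most `B` outside a set with `C B ^ ε` elements are good at the level `N` -/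
def FewBad {T : Type} (h : T → ℝ) (Good : ℕ → T → Prop) : Prop :=
  ∀ ε : ℝ, 0 < ε → ∃ C : ℝ, ∀ B : ℝ, 1 ≤ B → ∃ N : ℕ, 1 ≤ N ∧ (N : ℝ) ≤ C * B ^ ε ∧
    ∃ Z : Finset T, (Z.card : ℝ) ≤ C * B ^ ε ∧ ∀ y, h y ≤ B → y ∉ Z → Good N y

theorem level {T : Type} (h : T → ℝ) (Good : ℕ → T → Prop) (H : FewBad h Good)
    {v : ℕ → ℝ} {τ θ : ℝ} (hv : ∀ n, 1 ≤ v n) (hτ : 0 ≤ τ) (hE : ExpLe v τ) (hθ : θ < 1) :
    ∃ E : Set ℝ, dimH E ≤ ENNReal.ofReal (τ / (1 - θ)) ∧ ∀ a : ℝ, 0 < a → a ∉ E → ∀ ε : ℝ, 0 < ε →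
      ∃ n₀ : ℕ, ∀ n : ℕ, n₀ ≤ n → ∃ N : ℕ, 1 ≤ N ∧ (N : ℝ) ≤ v n ^ ε ∧
        ∀ y, |h y - a * v n| ≤ (v n) ^ θ → Good N y := by
  have hvp : ∀ n, 0 < v n := fun n => lt_of_lt_of_le one_pos (hv n)
  have htv : Tendsto v atTop atTop := Pool.Agent.Y854.GM.tendsto_of_expLe hvp hτ hE
  have hv2 : ∀ n, 1 ≤ v n ^ (2 : ℝ) := fun n => Real.one_le_rpow (hv n) (by norm_num)
  have he : ∀ m : ℕ, (0 : ℝ) < 1 / ((m : ℝ) + 1) := fun m => by positivity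
  choose C hC using fun m : ℕ => H (1 / ((m : ℝ) + 1)) (he m)
  choose N hN1 hNC Z hZ hgood using fun (m n : ℕ) => hC m (v n ^ (2 : ℝ)) (hv2 n)
  have hpow : ∀ m n : ℕ, (v n ^ (2 : ℝ)) ^ (1 / ((m : ℝ) + 1)) = v n ^ (2 / ((m : ℝ) + 1)) := by
    intro m n
    rw [← Real.rpow_mul (hvp n).le]
    congr 1
    ring
  have hex : ∀ m : ℕ, ∃ E : Set ℝ, dimH E ≤ ENNReal.ofReal ((2 / ((m : ℝ) + 1) + τ) / (1 - θ)) ∧
      ∀ α : ℝ, 0 < α → α ∉ E → ∃ n0 : ℕ, ∀ n : ℕ, n0 ≤ n → ∀ t ∈ (Z m n : Set T),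
        1 * (v n) ^ θ < |h t - α * v n| := by
    intro m
    refine Pool.Agent.Y854.GM.windowsV (fun n => (Z m n : Set T)) (fun _ => h) 1 hv hτ hE
      (by positivity) hθ (fun A ε hε => ⟨|C m|, 0, fun n _ => ?_⟩)
    have hsub : {t | t ∈ (Z m n : Set T) ∧ h t ≤ ((A : ℝ) + 1) * v n} ⊆ (Z m n : Set T) := fun t ht => ht.1
    refine ⟨(Z m n).finite_toSet.subset hsub, ?_⟩
    have h1 : (({t | t ∈ (Z m n : Set T) ∧ h t ≤ ((A : ℝ) + 1) * v n}.ncard : ℕ) : ℝ) ≤ ((Z m n).card : ℝ) := by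
      rw [← Set.ncard_coe_finset (Z m n)]
      exact_mod_cast Set.ncard_le_ncard hsub (Z m n).finite_toSet
    refine h1.trans ((hZ m n).trans ?_)
    rw [hpow]
    calc C m * v n ^ (2 / ((m : ℝ) + 1)) ≤ |C m| * v n ^ (2 / ((m : ℝ) + 1)) :=
          mul_le_mul_of_nonneg_right (le_abs_self _) (Real.rpow_nonneg (hvp n).le _)
      _ ≤ |C m| * v n ^ (2 / ((m : ℝ) + 1) + ε) :=
          mul_le_mul_of_nonneg_left (Real.rpow_le_rpow_of_exponent_le (hv n) (by linarith)) (abs_nonneg _)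
  choose E hE1 hE2 using hex
  refine ⟨⋃ k : ℕ, ⋂ m : ℕ, E (k + m), ?_, fun a ha haE ε hε => ?_⟩
  · rw [dimH_iUnion]
    refine iSup_le fun k => ?_
    refine Pool.Agent.X286.Win.inter (s := fun m : ℕ => 2 / (((k + m : ℕ) : ℝ) + 1)) ?_ fun m => hE1 (k + m)
    have h1 : Tendsto (fun m : ℕ => (((k + m : ℕ) : ℝ) + 1)) atTop atTop := by
      refine tendsto_atTop_add_const_right _ _ ?_
      refine tendsto_natCast_atTop_atTop.comp ?_
      exact tendsto_atTop_mono (fun m => Nat.le_add_left m k) tendsto_id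
    exact h1.const_div_atTop 2
  · obtain ⟨k, hk⟩ := exists_nat_gt (2 / (ε / 2))
    have h1 : a ∉ ⋂ m : ℕ, E (k + m) := fun h => haE (Set.mem_iUnion.2 ⟨k, h⟩)
    rw [Set.mem_iInter] at h1
    push Not at h1
    obtain ⟨m, hm⟩ := h1
    obtain ⟨n0, hn0⟩ := hE2 (k + m) a ha hm
    have hexp : 2 / (((k + m : ℕ) : ℝ) + 1) ≤ ε / 2 := by
      rw [div_le_iff₀ (by positivity)]
      rw [div_lt_iff₀ (by positivity)] at hk
      push_cast
      nlinarith [(Nat.cast_nonneg m : (0 : ℝ) ≤ m)]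
    have h2 : ∀ᶠ n in atTop, |C (k + m)| ≤ v n ^ (ε / 2) :=
      ((tendsto_rpow_atTop (by positivity : 0 < ε / 2)).comp htv).eventually_ge_atTop _
    have h3 : ∀ᶠ n in atTop, a + 1 ≤ v n := htv.eventually_ge_atTop _
    obtain ⟨n1, hn1⟩ := eventually_atTop.1 (h2.and h3)
    refine ⟨max n0 n1, fun n hn => ?_⟩
    obtain ⟨hn2, hn3⟩ := hn1 n ((le_max_right _ _).trans hn)
    refine ⟨N (k + m) n, hN1 (k + m) n, ?_, fun y hy => ?_⟩
    · refine (hNC (k + m) n).trans ?_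
      rw [hpow]
      calc C (k + m) * v n ^ (2 / (((k + m : ℕ) : ℝ) + 1)) ≤ |C (k + m)| * v n ^ (ε / 2) :=
            mul_le_mul (le_abs_self _) (Real.rpow_le_rpow_of_exponent_le (hv n) hexp)
              (Real.rpow_nonneg (hvp n).le _) (abs_nonneg _)
        _ ≤ v n ^ (ε / 2) * v n ^ (ε / 2) :=
            mul_le_mul_of_nonneg_right hn2 (Real.rpow_nonneg (hvp n).le _)
        _ = v n ^ ε := by rw [← Real.rpow_add (hvp n)]; ring_nf
    · refine hgood (k + m) n y ?_ fun hyZ => ?_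
      · have h4 : v n ^ θ ≤ v n := by
          calc v n ^ θ ≤ v n ^ (1 : ℝ) := Real.rpow_le_rpow_of_exponent_le (hv n) hθ.le
            _ = v n := Real.rpow_one _
        have h5 := (abs_le.1 hy).2
        have h6 : v n ^ (2 : ℝ) = v n * v n := by
          rw [show (2 : ℝ) = 1 + 1 by norm_num, Real.rpow_add (hvp n), Real.rpow_one]
        rw [h6]
        nlinarith [hv n]
      · have h7 := hn0 n ((le_max_left _ _).trans hn) y hyZ
        rw [one_mul] at h7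
        exact absurd hy (not_le.2 h7)

/-- the same for countably many situations at once -/
theorem levels {ι : Type} [Countable ι] {T : ι → Type} (h : ∀ i, T i → ℝ) (Good : ∀ i, ℕ → T i → Prop)
    (H : ∀ i, FewBad (h i) (Good i))
    {v : ℕ → ℝ} {τ θ : ℝ} (hv : ∀ n, 1 ≤ v n) (hτ : 0 ≤ τ) (hE : ExpLe v τ) (hθ : θ < 1) :
    ∃ E : Set ℝ, dimH E ≤ ENNReal.ofReal (τ / (1 - θ)) ∧ ∀ a : ℝ, 0 < a → a ∉ E → ∀ i, ∀ ε : ℝ, 0 < ε →
      ∃ n₀ : ℕ, ∀ n : ℕ, n₀ ≤ n → ∃ N : ℕ, 1 ≤ N ∧ (N : ℝ) ≤ v n ^ ε ∧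
        ∀ y, |h i y - a * v n| ≤ (v n) ^ θ → Good i N y := by
  choose E h1 h2 using fun i => level (h i) (Good i) (H i) hv hτ hE hθ
  refine ⟨⋃ i, E i, ?_, fun a ha haE i => h2 i a ha fun h => haE (Set.mem_iUnion.2 ⟨i, h⟩)⟩
  rw [dimH_iUnion]
  exact iSup_le h1

/-- the case without a level -/
theorem fewBad_of {T : Type} (h : T → ℝ) (Good : T → Prop)
    (H : ∀ ε : ℝ, 0 < ε → ∃ C : ℝ, ∀ B : ℝ, 1 ≤ B →
      ∃ Z : Finset T, (Z.card : ℝ) ≤ C * B ^ ε ∧ ∀ y, h y ≤ B → y ∉ Z → Good y) :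
    FewBad h (fun _ => Good) := by
  intro ε hε
  obtain ⟨C, hC⟩ := H ε hε
  refine ⟨|C| + 1, fun B hB => ⟨1, le_rfl, ?_, ?_⟩⟩
  · have h1 : 1 ≤ B ^ ε := Real.one_le_rpow hB hε.le
    have h2 : 0 ≤ |C| := abs_nonneg _
    push_cast
    nlinarith
  · obtain ⟨Z, hZ, h3⟩ := hC B hB
    refine ⟨Z, hZ.trans ?_, h3⟩
    have h1 : 0 ≤ B ^ ε := Real.rpow_nonneg (by linarith) _
    nlinarith [le_abs_self C]

/-- the case of a set of bad elements -/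
theorem fewBad_of_set {T : Type} (h : T → ℝ) (S : Set T)
    (H : ∀ ε : ℝ, 0 < ε → ∃ C : ℝ, ∀ B : ℝ, 1 ≤ B → {y ∈ S | h y ≤ B}.Finite ∧
      ({y ∈ S | h y ≤ B}.ncard : ℝ) ≤ C * B ^ ε) :
    FewBad h (fun _ y => y ∉ S) := by
  refine fewBad_of h (fun y => y ∉ S) fun ε hε => ?_
  obtain ⟨C, hC⟩ := H ε hε
  refine ⟨C, fun B hB => ?_⟩
  obtain ⟨h1, h2⟩ := hC B hB
  refine ⟨h1.toFinset, ?_, fun y hy hyZ hyS => hyZ (h1.mem_toFinset.2 ⟨hyS, hy⟩)⟩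
  rw [← Set.ncard_eq_toFinset_card _ h1]
  exact h2

theorem fewBad_trivial {T : Type} (h : T → ℝ) (Good : ℕ → T → Prop) (H : ∀ N y, Good N y) :
    FewBad h Good := by
  intro ε hε
  refine ⟨1, fun B hB => ⟨1, le_rfl, ?_, ∅, ?_, fun y _ _ => H 1 y⟩⟩
  · rw [one_mul, Nat.cast_one]
    exact Real.one_le_rpow hB hε.le
  · rw [Finset.card_empty, Nat.cast_zero, one_mul]
    exact Real.rpow_nonneg (by linarith) _

end Pool.Agent.X134.Win
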