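import Mathlib
import Pool.Agent.X134.Win.Level

/-!
# Real numbers close to infinitely many members of small sets
-/

set_option autoImplicit false

namespace Pool.Agent.X134.Win

open MeasureTheory Filter Topology
open Pool.Agent.X286.Win (ExpLe)

/-- the real numbers close to members of `S n` for infinitely many `n` -/
theorem near {T : Type} (S : ℕ → Set T) (f : T → ℝ) {v : ℕ → ℝ} {s τ η : ℝ} (B : ℝ) (hv : ∀ n, 1 ≤ v n)
    (hτ : 0 ≤ τ) (hE : ExpLe v τ) (hs : 0 ≤ s) (hη : 0 < η)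
    (hS : ∀ ε : ℝ, 0 < ε → ∃ (C : ℝ) (n₁ : ℕ), ∀ n : ℕ, n₁ ≤ n →
      (S n).Finite ∧ ((S n).ncard : ℝ) ≤ C * (v n) ^ (s + ε)) :
    ∃ E : Set ℝ, dimH E ≤ ENNReal.ofReal ((s + τ) / η) ∧ ∀ x : ℝ, x ∉ E →
      ∃ n₀ : ℕ, ∀ n : ℕ, n₀ ≤ n → ∀ t ∈ S n, B * (v n) ^ (-η) < |f t - x| := by
  have h := fun M : ℕ => Pool.Agent.Y854.GM.windowsV S (fun n t => (f t + M) * v n) B hv hτ hE hs
    (θ := 1 - η) (by linarith) (fun A ε hε => by
      obtain ⟨C, n₁, h⟩ := hS ε hε
      refine ⟨C, n₁, fun n hn => ?_⟩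
      have hsub : {t | t ∈ S n ∧ (f t + M) * v n ≤ ((A : ℝ) + 1) * v n} ⊆ S n := fun t ht => ht.1
      refine ⟨(h n hn).1.subset hsub, le_trans ?_ (h n hn).2⟩
      exact_mod_cast Set.ncard_le_ncard hsub (h n hn).1)
  choose E hE1 hE2 using h
  refine ⟨⋃ M : ℕ, (fun x : ℝ => x + M) ⁻¹' (E M), ?_, fun x hx => ?_⟩
  · rw [dimH_iUnion]
    refine iSup_le fun M => ?_
    have h1 : dimH ((fun x : ℝ => x + M) ⁻¹' (E M)) = dimH (E M) :=
      (IsometryEquiv.addRight (M : ℝ)).dimH_preimage (E M)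
    rw [h1]
    have h2 := hE1 M
    rwa [show (1 : ℝ) - (1 - η) = η by ring] at h2
  · obtain ⟨M, hM⟩ := exists_nat_gt (-x)
    have h1 : x + M ∉ E M := fun h => hx (Set.mem_iUnion.2 ⟨M, h⟩)
    obtain ⟨n0, hn0⟩ := hE2 M (x + M) (by linarith) h1
    refine ⟨n0, fun n hn t ht => ?_⟩
    have h2 := hn0 n hn t ht
    have hvp : 0 < v n := lt_of_lt_of_le one_pos (hv n)
    have h3 : |(f t + M) * v n - (x + M) * v n| = |f t - x| * v n := by
      rw [show (f t + M) * v n - (x + M) * v n = (f t - x) * v n by ring, abs_mul, abs_of_pos hvp]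
    rw [h3] at h2
    have h4 : (v n) ^ (1 - η) = (v n) ^ (-η) * v n := by
      rw [show (1 : ℝ) - η = -η + 1 by ring, Real.rpow_add hvp, Real.rpow_one]
    rw [h4, ← mul_assoc] at h2
    exact lt_of_mul_lt_mul_right h2 hvp.le

/-- powers of two -/
noncomputable def two (n : ℕ) : ℝ := (2 : ℝ) ^ n

theorem one_le_two (n : ℕ) : 1 ≤ two n := one_le_pow₀ (by norm_num)

theorem expLe_two : ExpLe two 0 := by
  intro t ht
  have h := (Pool.Agent.Y854.GM.expLe_geom (b := 2) (by norm_num)) t ht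
  refine h.congr fun n => ?_
  simp [two]

theorem exists_two (x : ℝ) (hx : 1 ≤ x) : ∃ n : ℕ, x ≤ two n ∧ two n ≤ 2 * x := by
  obtain ⟨n, hn, hmin⟩ : ∃ n : ℕ, x ≤ two n ∧ ∀ m < n, ¬ x ≤ two m := by
    have h : ∃ n : ℕ, x ≤ two n := by
      obtain ⟨n, hn⟩ := pow_unbounded_of_one_lt x (by norm_num : (1 : ℝ) < 2)
      exact ⟨n, hn.le⟩
    classical
    exact ⟨Nat.find h, Nat.find_spec h, fun m hm => Nat.find_min h hm⟩
  refine ⟨n, hn, ?_⟩
  rcases n with _ | n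
  · simp only [two, pow_zero]
    linarith
  · have h := hmin n (Nat.lt_succ_self n)
    rw [not_le] at h
    simp only [two, pow_succ] at h ⊢
    linarith

theorem two_tendsto : Tendsto two atTop atTop := tendsto_pow_atTop_atTop_of_one_lt (by norm_num)

/-- **Approximations of a real number.** -/
theorem targets {T : Type} (f h : T → ℝ) (Good : ℕ → T → Prop) (H : FewBad h Good) :
    ∃ E : Set ℝ, dimH E = 0 ∧ ∀ x : ℝ, x ∉ E → ∀ η : ℝ, 0 < η → ∀ ε : ℝ, 0 < ε → ∃ h₀ : ℝ, ∀ y : T,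
      h₀ ≤ h y → |f y - x| ≤ h y ^ (-η) → ∃ N : ℕ, 1 ≤ N ∧ (N : ℝ) ≤ h y ^ ε ∧ Good N y := by
  have he : ∀ m : ℕ, (0 : ℝ) < 1 / ((m : ℝ) + 1) := fun m => by positivity
  choose C hC using fun m : ℕ => H (1 / ((m : ℝ) + 1)) (he m)
  choose N hN1 hNC Z hZ hgood using fun (m n : ℕ) => hC m (two n) (one_le_two n)
  have hex : ∀ j m : ℕ, ∃ E : Set ℝ, dimH E ≤ ENNReal.ofReal ((1 / ((m : ℝ) + 1) + 0) / (1 / ((j : ℝ) + 1))) ∧
      ∀ x : ℝ, x ∉ E → ∃ n₀ : ℕ, ∀ n : ℕ, n₀ ≤ n → ∀ t ∈ (Z m n : Set T),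
        2 * (two n) ^ (-(1 / ((j : ℝ) + 1))) < |f t - x| := by
    intro j m
    refine near (fun n => (Z m n : Set T)) f 2 one_le_two le_rfl expLe_two (he m).le (he j)
      (fun ε hε => ⟨|C m|, 0, fun n _ => ⟨(Z m n).finite_toSet, ?_⟩⟩)
    rw [Set.ncard_coe_finset]
    refine (hZ m n).trans ?_
    calc C m * two n ^ (1 / ((m : ℝ) + 1)) ≤ |C m| * two n ^ (1 / ((m : ℝ) + 1)) :=
          mul_le_mul_of_nonneg_right (le_abs_self _) (Real.rpow_nonneg (zero_le_one.trans (one_le_two n)) _)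
      _ ≤ |C m| * two n ^ (1 / ((m : ℝ) + 1) + ε) :=
          mul_le_mul_of_nonneg_left (Real.rpow_le_rpow_of_exponent_le (one_le_two n) (by linarith)) (abs_nonneg _)
  choose E hE1 hE2 using hex
  refine ⟨⋃ j : ℕ, ⋃ k : ℕ, ⋂ m : ℕ, E j (k + m), ?_, fun x hx η hη ε hε => ?_⟩
  · refine le_antisymm ?_ (zero_le')
    rw [dimH_iUnion]
    refine iSup_le fun j => ?_
    rw [dimH_iUnion]
    refine iSup_le fun k => ?_
    have hlim : Tendsto (fun m : ℕ => ENNReal.ofReal ((1 / (((k + m : ℕ) : ℝ) + 1) + 0) / (1 / ((j : ℝ) + 1))))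
        atTop (𝓝 0) := by
      rw [← ENNReal.ofReal_zero]
      refine ENNReal.tendsto_ofReal ?_
      have h1 : Tendsto (fun m : ℕ => (((k + m : ℕ) : ℝ) + 1)) atTop atTop := by
        refine tendsto_atTop_add_const_right _ _ ?_
        refine tendsto_natCast_atTop_atTop.comp ?_
        exact tendsto_atTop_mono (fun m => Nat.le_add_left m k) tendsto_id
      have h2 := ((h1.const_div_atTop 1).add_const 0).div_const (1 / ((j : ℝ) + 1))
      simpa using h2
    exact ge_of_tendsto' hlim fun m => (dimH_mono (Set.iInter_subset _ m)).trans (hE1 j (k + m))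
  · obtain ⟨j, hj⟩ := exists_nat_gt (1 / η)
    obtain ⟨k, hk⟩ := exists_nat_gt (1 / (ε / 2))
    have h1 : x ∉ ⋂ m : ℕ, E j (k + m) := fun h => hx (Set.mem_iUnion.2 ⟨j, Set.mem_iUnion.2 ⟨k, h⟩⟩)
    rw [Set.mem_iInter] at h1
    push Not at h1
    obtain ⟨m, hm⟩ := h1
    obtain ⟨n0, hn0⟩ := hE2 j (k + m) x hm
    have hηj : 1 / ((j : ℝ) + 1) ≤ η := by
      rw [div_le_iff₀ (by positivity)]
      rw [div_lt_iff₀ hη] at hj
      nlinarith
    have hεk : 1 / (((k + m : ℕ) : ℝ) + 1) ≤ ε / 2 := by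
      rw [div_le_iff₀ (by positivity)]
      rw [div_lt_iff₀ (by positivity)] at hk
      push_cast
      nlinarith [(Nat.cast_nonneg m : (0 : ℝ) ≤ m)]
    have h2 : ∀ᶠ y : ℝ in atTop, |C (k + m)| * 2 ^ (ε / 2) ≤ y ^ (ε / 2) :=
      (tendsto_rpow_atTop (by positivity : 0 < ε / 2)).eventually_ge_atTop _
    obtain ⟨y0, hy0⟩ := eventually_atTop.1 (h2.and (eventually_ge_atTop (max 1 (two n0))))
    refine ⟨y0, fun y hy hxy => ?_⟩
    obtain ⟨h3, h4⟩ := hy0 (h y) hy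
    have hy1 : 1 ≤ h y := le_trans (le_max_left _ _) h4
    have hy2 : two n0 ≤ h y := le_trans (le_max_right _ _) h4
    have hyp : 0 < h y := by linarith
    obtain ⟨n, hn1, hn2⟩ := exists_two (h y) hy1
    have hnn : n0 ≤ n := by
      by_contra hcon
      rw [not_le] at hcon
      have h5 : two n < two n0 := pow_lt_pow_right₀ (by norm_num) hcon
      linarith
    have hnp : 0 < two n := lt_of_lt_of_le one_pos (one_le_two n)
    have hnot : y ∉ Z (k + m) n := by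
      intro hmem
      have h5 := hn0 n hnn y (Finset.mem_coe.2 hmem)
      have h6 : h y ^ (-η) ≤ 2 * (two n) ^ (-(1 / ((j : ℝ) + 1))) := by
        calc h y ^ (-η) ≤ h y ^ (-(1 / ((j : ℝ) + 1))) :=
              Real.rpow_le_rpow_of_exponent_le hy1 (by linarith)
          _ ≤ (two n / 2) ^ (-(1 / ((j : ℝ) + 1))) := by
              rw [Real.rpow_neg hyp.le, Real.rpow_neg (by positivity)]
              refine inv_anti₀ (by positivity) ?_
              exact Real.rpow_le_rpow (by positivity) (by linarith) (he j).le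
          _ = 2 ^ (1 / ((j : ℝ) + 1)) * (two n) ^ (-(1 / ((j : ℝ) + 1))) := by
              rw [Real.div_rpow hnp.le (by norm_num), Real.rpow_neg (by norm_num : (0 : ℝ) ≤ 2), div_inv_eq_mul, mul_comm]
          _ ≤ 2 * (two n) ^ (-(1 / ((j : ℝ) + 1))) := by
              refine mul_le_mul_of_nonneg_right ?_ (by positivity)
              calc (2 : ℝ) ^ (1 / ((j : ℝ) + 1)) ≤ 2 ^ (1 : ℝ) := by
                    refine Real.rpow_le_rpow_of_exponent_le (by norm_num) ?_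
                    rw [div_le_one (by positivity)]
                    linarith [(Nat.cast_nonneg j : (0 : ℝ) ≤ j)]
                _ = 2 := Real.rpow_one 2
      linarith
    refine ⟨N (k + m) n, hN1 _ _, (hNC (k + m) n).trans ?_, hgood (k + m) n y hn1 hnot⟩
    calc C (k + m) * two n ^ (1 / (((k + m : ℕ) : ℝ) + 1)) ≤ |C (k + m)| * two n ^ (1 / (((k + m : ℕ) : ℝ) + 1)) :=
          mul_le_mul_of_nonneg_right (le_abs_self _) (Real.rpow_nonneg hnp.le _)
      _ ≤ |C (k + m)| * two n ^ (ε / 2) :=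
          mul_le_mul_of_nonneg_left (Real.rpow_le_rpow_of_exponent_le (one_le_two n) hεk) (abs_nonneg _)
      _ ≤ |C (k + m)| * (2 * h y) ^ (ε / 2) :=
          mul_le_mul_of_nonneg_left (Real.rpow_le_rpow hnp.le hn2 (by linarith)) (abs_nonneg _)
      _ = |C (k + m)| * 2 ^ (ε / 2) * h y ^ (ε / 2) := by
          rw [Real.mul_rpow (by norm_num) hyp.le, mul_assoc]
      _ ≤ h y ^ (ε / 2) * h y ^ (ε / 2) := mul_le_mul_of_nonneg_right h3 (by positivity)
      _ = h y ^ ε := by rw [← Real.rpow_add hyp]; congr 1; ring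

end Pool.Agent.X134.Win
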