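import Mathlib
import Pool.Agent.X134.Win.Near

/-!
# Real numbers close to the exceptional members of families with rational coefficients
-/

set_option autoImplicit false

namespace Pool.Agent.X134.Win

open MeasureTheory Filter Topology

/-- the height of a rational number -/
def ht (q : ℚ) : ℕ := max q.num.natAbs q.den

theorem one_le_ht (q : ℚ) : 1 ≤ ht q := le_trans q.pos (le_max_right _ _)

/-- the fractions `a / b` with `|a| ≤ R` and `1 ≤ b ≤ R` -/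
noncomputable def box (R : ℕ) : Finset ℚ :=
  (Finset.Icc (-(R : ℤ)) R ×ˢ Finset.Icc 1 R).image fun p => (p.1 : ℚ) / (p.2 : ℚ)

theorem mem_box (q : ℚ) (R : ℕ) (h : ht q ≤ R) : q ∈ box R := by
  have h1 : q.num.natAbs ≤ R := le_trans (le_max_left _ _) h
  have h2 : q.den ≤ R := le_trans (le_max_right _ _) h
  refine Finset.mem_image.2 ⟨(q.num, q.den), ?_, Rat.num_div_den q⟩
  rw [Finset.mem_product, Finset.mem_Icc, Finset.mem_Icc]
  exact ⟨⟨by omega, by omega⟩, q.pos, h2⟩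

theorem card_box (R : ℕ) (hR : 1 ≤ R) : ((box R).card : ℝ) ≤ 3 * (R : ℝ) ^ 2 := by
  have h1 : (box R).card ≤ (2 * R + 1) * R := by
    refine Finset.card_image_le.trans ?_
    rw [Finset.card_product, Int.card_Icc, Nat.card_Icc]
    have e : ((R : ℤ) + 1 - -(R : ℤ)).toNat = 2 * R + 1 := by omega
    rw [e]
    simp
  have h2 : (1 : ℝ) ≤ R := by exact_mod_cast hR
  calc ((box R).card : ℝ) ≤ (((2 * R + 1) * R : ℕ) : ℝ) := by exact_mod_cast h1
    _ = (2 * (R : ℝ) + 1) * R := by push_cast; ring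
    _ ≤ _ := by nlinarith

/-- members of a family indexed by vectors of rational numbers -/
theorem union_count {T : Type} (r : ℕ) (Q : Finset ℚ) (F : (Fin r → ℚ) → Set T) (K : ℝ) (hK : 0 ≤ K)
    (hF : ∀ u, (∀ i, u i ∈ Q) → (F u).Finite ∧ ((F u).ncard : ℝ) ≤ K) :
    {t | ∃ u : Fin r → ℚ, (∀ i, u i ∈ Q) ∧ t ∈ F u}.Finite ∧
      ({t | ∃ u : Fin r → ℚ, (∀ i, u i ∈ Q) ∧ t ∈ F u}.ncard : ℝ) ≤ (Q.card : ℝ) ^ r * K := by
  classical
  set P : Finset (Fin r → ℚ) := Fintype.piFinset fun _ : Fin r => Q with hP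
  have hPm : ∀ u, u ∈ P ↔ ∀ i, u i ∈ Q := fun u => Fintype.mem_piFinset
  set W : Finset T := P.attach.biUnion fun u => (hF u.1 ((hPm _).1 u.2)).1.toFinset with hW
  have hsub : {t | ∃ u : Fin r → ℚ, (∀ i, u i ∈ Q) ∧ t ∈ F u} ⊆ (W : Set T) := by
    rintro t ⟨u, hu, ht⟩
    rw [Finset.mem_coe, hW, Finset.mem_biUnion]
    exact ⟨⟨u, (hPm u).2 hu⟩, Finset.mem_attach _ _, (Set.Finite.mem_toFinset _).2 ht⟩
  refine ⟨W.finite_toSet.subset hsub, ?_⟩
  have h1 : ({t | ∃ u : Fin r → ℚ, (∀ i, u i ∈ Q) ∧ t ∈ F u}.ncard : ℝ) ≤ (W.card : ℝ) := by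
    rw [← Set.ncard_coe_finset W]
    exact_mod_cast Set.ncard_le_ncard hsub W.finite_toSet
  have h2 : (W.card : ℝ) ≤ ∑ u ∈ P.attach, ((hF u.1 ((hPm _).1 u.2)).1.toFinset.card : ℝ) := by
    exact_mod_cast Finset.card_biUnion_le
  have h3 : ∑ u ∈ P.attach, ((hF u.1 ((hPm _).1 u.2)).1.toFinset.card : ℝ) ≤ ∑ _u ∈ P.attach, K := by
    refine Finset.sum_le_sum fun u _ => ?_
    rw [← Set.ncard_eq_toFinset_card _ (hF u.1 ((hPm _).1 u.2)).1]
    exact (hF u.1 ((hPm _).1 u.2)).2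
  refine h1.trans (h2.trans (h3.trans (le_of_eq ?_)))
  rw [Finset.sum_const, Finset.card_attach, hP, Fintype.card_piFinset_const, nsmul_eq_mul]
  push_cast
  simp

/-- **Families with coefficients of small height near a real number.** -/
theorem near_family {T : Type} (f : T → ℝ) (r : ℕ) (F : ℕ → ℕ → (Fin r → ℚ) → Set T)
    (hF : ∀ m : ℕ, ∃ C : ℝ, ∀ (n : ℕ) (u : Fin r → ℚ), (F m n u).Finite ∧
      ((F m n u).ncard : ℝ) ≤ C * two n ^ (1 / ((m : ℝ) + 1))) :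
    ∃ E : Set ℝ, dimH E = 0 ∧ ∀ x : ℝ, x ∉ E → ∀ η : ℝ, 0 < η → ∃ m n₀ : ℕ, ∀ n : ℕ, n₀ ≤ n →
      ∀ u : Fin r → ℚ, (∀ i, (ht (u i) : ℝ) ≤ two n ^ (1 / ((m : ℝ) + 1))) → ∀ t ∈ F m n u,
        2 * (two n) ^ (-η) < |f t - x| := by
  have he : ∀ m : ℕ, (0 : ℝ) < 1 / ((m : ℝ) + 1) := fun m => by positivity
  choose C hC using hF
  set R : ℕ → ℕ → ℕ := fun m n => ⌊two n ^ (1 / ((m : ℝ) + 1))⌋₊ with hR
  have hR1 : ∀ m n, 1 ≤ R m n := fun m n => by
    rw [hR]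
    exact Nat.one_le_floor_iff _ |>.2 (Real.one_le_rpow (one_le_two n) (he m).le)
  have hR2 : ∀ m n, (R m n : ℝ) ≤ two n ^ (1 / ((m : ℝ) + 1)) := fun m n =>
    Nat.floor_le (Real.rpow_nonneg (zero_le_one.trans (one_le_two n)) _)
  have hex : ∀ j m : ℕ, ∃ E : Set ℝ,
      dimH E ≤ ENNReal.ofReal ((1 / ((m : ℝ) + 1) * (2 * r + 1) + 0) / (1 / ((j : ℝ) + 1))) ∧
      ∀ x : ℝ, x ∉ E → ∃ n₀ : ℕ, ∀ n : ℕ, n₀ ≤ n →
        ∀ t ∈ {t | ∃ u : Fin r → ℚ, (∀ i, u i ∈ box (R m n)) ∧ t ∈ F m n u},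
        2 * (two n) ^ (-(1 / ((j : ℝ) + 1))) < |f t - x| := by
    intro j m
    refine near (fun n => {t | ∃ u : Fin r → ℚ, (∀ i, u i ∈ box (R m n)) ∧ t ∈ F m n u}) f 2 one_le_two le_rfl
      expLe_two (by positivity) (he j) (fun ε hε => ⟨3 ^ r * |C m|, 0, fun n _ => ?_⟩)
    have hnp : 0 < two n := lt_of_lt_of_le one_pos (one_le_two n)
    have h1 := union_count r (box (R m n)) (F m n) (|C m| * two n ^ (1 / ((m : ℝ) + 1))) (by positivity)
      (fun u _ => ⟨(hC m n u).1, (hC m n u).2.trans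
        (mul_le_mul_of_nonneg_right (le_abs_self _) (Real.rpow_nonneg hnp.le _))⟩)
    refine ⟨h1.1, h1.2.trans ?_⟩
    have h2 : ((box (R m n)).card : ℝ) ≤ 3 * two n ^ (2 * (1 / ((m : ℝ) + 1))) := by
      refine (card_box _ (hR1 m n)).trans ?_
      refine mul_le_mul_of_nonneg_left ?_ (by norm_num)
      calc (R m n : ℝ) ^ 2 ≤ (two n ^ (1 / ((m : ℝ) + 1))) ^ 2 := pow_le_pow_left₀ (Nat.cast_nonneg _) (hR2 m n) 2
        _ = _ := by rw [← Real.rpow_natCast, ← Real.rpow_mul hnp.le]; congr 1; push_cast; ring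
    calc ((box (R m n)).card : ℝ) ^ r * (|C m| * two n ^ (1 / ((m : ℝ) + 1)))
        ≤ (3 * two n ^ (2 * (1 / ((m : ℝ) + 1)))) ^ r * (|C m| * two n ^ (1 / ((m : ℝ) + 1))) :=
          mul_le_mul_of_nonneg_right (pow_le_pow_left₀ (Nat.cast_nonneg _) h2 r) (by positivity)
      _ = 3 ^ r * |C m| * two n ^ (1 / ((m : ℝ) + 1) * (2 * r + 1)) := by
          rw [mul_pow, ← Real.rpow_natCast (two n ^ (2 * (1 / ((m : ℝ) + 1)))), ← Real.rpow_mul hnp.le,
            show (1 : ℝ) / ((m : ℝ) + 1) * (2 * r + 1) = 2 * (1 / ((m : ℝ) + 1)) * (r : ℝ) + 1 / ((m : ℝ) + 1) by ring,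
            Real.rpow_add hnp]
          ring
      _ ≤ 3 ^ r * |C m| * two n ^ (1 / ((m : ℝ) + 1) * (2 * r + 1) + ε) :=
          mul_le_mul_of_nonneg_left (Real.rpow_le_rpow_of_exponent_le (one_le_two n) (by linarith)) (by positivity)
  choose E hE1 hE2 using hex
  refine ⟨⋃ j : ℕ, ⋂ m : ℕ, E j m, ?_, fun x hx η hη => ?_⟩
  · refine le_antisymm ?_ zero_le
    rw [dimH_iUnion]
    refine iSup_le fun j => ?_
    have hlim : Tendsto (fun m : ℕ => ENNReal.ofReal ((1 / ((m : ℝ) + 1) * (2 * r + 1) + 0) / (1 / ((j : ℝ) + 1))))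
        atTop (𝓝 0) := by
      rw [← ENNReal.ofReal_zero]
      refine ENNReal.tendsto_ofReal ?_
      have h2 := ((tendsto_one_div_add_atTop_nhds_zero_nat (𝕜 := ℝ)).mul_const (2 * (r : ℝ) + 1)).add_const 0
      have h3 := h2.div_const (1 / ((j : ℝ) + 1))
      simpa using h3
    exact ge_of_tendsto' hlim fun m => (dimH_mono (Set.iInter_subset _ m)).trans (hE1 j m)
  · obtain ⟨j, hj⟩ := exists_nat_gt (1 / η)
    have h1 : x ∉ ⋂ m : ℕ, E j m := fun h => hx (Set.mem_iUnion.2 ⟨j, h⟩)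
    rw [Set.mem_iInter] at h1
    push Not at h1
    obtain ⟨m, hm⟩ := h1
    obtain ⟨n0, hn0⟩ := hE2 j m x hm
    have hηj : 1 / ((j : ℝ) + 1) ≤ η := by
      rw [div_le_iff₀ (by positivity)]
      rw [div_lt_iff₀ hη] at hj
      nlinarith
    refine ⟨m, n0, fun n hn u hu t ht => lt_of_le_of_lt ?_ (hn0 n hn t ⟨u, fun i => mem_box _ _ ?_, ht⟩)⟩
    · exact mul_le_mul_of_nonneg_left (Real.rpow_le_rpow_of_exponent_le (one_le_two n) (by linarith)) (by norm_num)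
    · exact Nat.le_floor (hu i)

/-- from the powers of two to all real numbers -/
theorem rpow_le_two {Y η : ℝ} (n : ℕ) (hY : 1 ≤ Y) (hη : 0 ≤ η) (hn : two n ≤ 2 * Y) :
    Y ^ (-η) ≤ 2 * two n ^ (-(min η 1)) := by
  have hm0 : 0 ≤ min η 1 := le_min hη zero_le_one
  have hnp : 0 < two n := lt_of_lt_of_le one_pos (one_le_two n)
  have hYp : 0 < Y := by linarith
  calc Y ^ (-η) ≤ Y ^ (-(min η 1)) :=
        Real.rpow_le_rpow_of_exponent_le hY (by linarith [min_le_left η 1])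
    _ ≤ (two n / 2) ^ (-(min η 1)) := by
        rw [Real.rpow_neg hYp.le, Real.rpow_neg (by positivity)]
        refine inv_anti₀ (by positivity) ?_
        exact Real.rpow_le_rpow (by positivity) (by linarith) hm0
    _ = 2 ^ (min η 1) * (two n) ^ (-(min η 1)) := by
        rw [Real.div_rpow hnp.le (by norm_num), Real.rpow_neg (by norm_num : (0 : ℝ) ≤ 2), div_inv_eq_mul, mul_comm]
    _ ≤ 2 * (two n) ^ (-(min η 1)) := by
        refine mul_le_mul_of_nonneg_right ?_ (by positivity)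
        calc (2 : ℝ) ^ (min η 1) ≤ 2 ^ (1 : ℝ) :=
              Real.rpow_le_rpow_of_exponent_le (by norm_num) (min_le_right _ _)
          _ = 2 := Real.rpow_one 2

end Pool.Agent.X134.Win
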