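import Mathlib
import Pool.Agent.X134.Win.NearQ

/-!
# Points of a metric space close to infinitely many members of small sets
-/

set_option autoImplicit false

namespace Pool.Agent.X134.Win

open MeasureTheory Filter Topology
open scoped ENNReal NNReal
open Pool.Agent.X286.Win (ExpLe)

theorem near_dim {X : Type} [MetricSpace X] [MeasurableSpace X] [BorelSpace X] {T : Type} (S : ℕ → Set T) (f : T → X)
    {v : ℕ → ℝ} {s τ η D B K : ℝ} (hv : ∀ n, 1 ≤ v n) (hτ : 0 ≤ τ) (hE : ExpLe v τ) (hs : 0 ≤ s) (hη : 0 < η)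
    (hB : 0 < B) (hK : 0 ≤ K) (hD : s + τ < D * η)
    (hS : ∀ n : ℕ, (S n).Finite ∧ ((S n).ncard : ℝ) ≤ K * (v n) ^ s) :
    dimH {x : X | ∀ n1 : ℕ, ∃ n : ℕ, n1 ≤ n ∧ ∃ t ∈ S n, dist (f t) x ≤ B * (v n) ^ (-η)} ≤ ENNReal.ofReal D := by
  have hD0 : 0 < D := by
    have h1 : 0 < D * η := lt_of_le_of_lt (by positivity) hD
    exact (pos_iff_pos_of_mul_pos h1).2 hη
  have hDn : ((Real.toNNReal D : ℝ≥0) : ℝ) = D := Real.coe_toNNReal D hD0.le
  have hgoal : ENNReal.ofReal D = ((Real.toNNReal D : ℝ≥0) : ℝ≥0∞) := rfl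
  rw [hgoal]
  apply dimH_le_of_hausdorffMeasure_ne_top
  rw [hDn]
  have hvp : ∀ n, 0 < v n := fun n => lt_of_lt_of_le one_pos (hv n)
  set U : ℕ → Finset T := fun m => (hS m).1.toFinset with hU
  set p : ℝ := D * η - s with hp
  have hp1 : τ < p := by rw [hp]; linarith
  have hcard : ∀ m : ℕ, ((U m).card : ℝ) ≤ K * (v m) ^ s := by
    intro m
    have h2 := (hS m).2
    rw [Set.ncard_eq_toFinset_card _ (hS m).1] at h2
    exact h2
  set r0 : ℕ → ℝ := fun n => 2 * B * (v n) ^ (-η) with hr0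
  have hr0p : ∀ n, 0 < r0 n := fun n => mul_pos (by positivity) (Real.rpow_pos_of_pos (hvp n) _)
  have hsum : Summable (fun m : ℕ => ((2 * B) ^ D * K) * (v m) ^ (-p)) := (hE p hp1).mul_left _
  have hlev : ∀ m : ℕ, ((U m).card : ℝ) * (r0 m) ^ D ≤ ((2 * B) ^ D * K) * (v m) ^ (-p) := by
    intro m
    have hm0 := hvp m
    calc ((U m).card : ℝ) * (r0 m) ^ D ≤ (K * (v m) ^ s) * (r0 m) ^ D :=
          mul_le_mul_of_nonneg_right (hcard m) (Real.rpow_nonneg (hr0p m).le _)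
      _ = ((2 * B) ^ D * K) * ((v m) ^ s * (v m) ^ ((-η) * D)) := by
          rw [hr0, Real.mul_rpow (by positivity) (Real.rpow_nonneg hm0.le _), ← Real.rpow_mul hm0.le]
          ring
      _ = ((2 * B) ^ D * K) * (v m) ^ (-p) := by
          rw [← Real.rpow_add hm0]
          congr 2
          rw [hp]
          ring
  have htv : Tendsto v atTop atTop := Pool.Agent.Y854.GM.tendsto_of_expLe hvp hτ hE
  have hr0t : Tendsto r0 atTop (𝓝 0) := by
    have h1 : Tendsto (fun n => (v n) ^ (-η)) atTop (𝓝 0) := (tendsto_rpow_neg_atTop hη).comp htv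
    have h2 := h1.const_mul (2 * B)
    rw [mul_zero] at h2
    exact h2
  have hr : ∀ ε : ℝ≥0∞, 0 < ε → ∃ N : ℕ, ∀ n : ℕ, N ≤ n → ENNReal.ofReal (r0 n) ≤ ε := by
    intro ε hε
    have h1 := ENNReal.tendsto_ofReal hr0t
    rw [ENNReal.ofReal_zero] at h1
    exact ((h1.eventually (ge_mem_nhds hε))).exists_forall_of_atTop
  set r : ℕ → ℝ≥0∞ := fun n => ⨆ i : ℕ, ENNReal.ofReal (r0 (n + i)) with hrdef
  have hrt : Tendsto r atTop (𝓝 0) := by
    rw [ENNReal.tendsto_atTop_zero]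
    intro ε hε
    obtain ⟨N, hN⟩ := hr ε hε
    exact ⟨N, fun n hn => iSup_le fun i => hN _ (by omega)⟩
  have hd : ∀ (n : ℕ) (q : Σ i : ℕ, (U (n + i))),
      Metric.ediam (Metric.closedBall (f (q.2 : T)) (B * (v (n + q.1)) ^ (-η))) ≤ ENNReal.ofReal (r0 (n + q.1)) := by
    intro n q
    refine (Metric.ediam_le_of_forall_dist_le fun x hx y hy => ?_)
    have h1 := Metric.mem_closedBall.1 hx
    have h2 := Metric.mem_closedBall'.1 hy
    have h3 := dist_triangle x (f (q.2 : T)) y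
    rw [hr0]
    simp only
    linarith
  have key := Measure.hausdorffMeasure_le_liminf_tsum (X := X) (β := ℕ)
    (ι := fun n => Σ i : ℕ, (U (n + i))) D
    {x : X | ∀ n1 : ℕ, ∃ n : ℕ, n1 ≤ n ∧ ∃ t ∈ S n, dist (f t) x ≤ B * (v n) ^ (-η)}
    (l := atTop) r hrt
    (fun n q => Metric.closedBall (f (q.2 : T)) (B * (v (n + q.1)) ^ (-η)))
    (Eventually.of_forall fun n q => by
      exact (hd n q).trans (le_iSup (fun i : ℕ => ENNReal.ofReal (r0 (n + i))) q.1))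
    (Eventually.of_forall fun n x hx => by
      obtain ⟨m, hm1, t, ht, hm3⟩ := hx n
      obtain ⟨i, rfl⟩ := Nat.exists_eq_add_of_le hm1
      rw [Set.mem_iUnion]
      refine ⟨⟨i, ⟨t, (Set.Finite.mem_toFinset _).2 ht⟩⟩, ?_⟩
      rw [Metric.mem_closedBall']
      exact hm3)
  refine ne_top_of_le_ne_top ?_ key
  have hnn : ∀ m : ℕ, 0 ≤ ((2 * B) ^ D * K) * (v m) ^ (-p) := fun m =>
    mul_nonneg (by positivity) (Real.rpow_nonneg (hvp m).le _)
  have htot : (∑' m : ℕ, ENNReal.ofReal (((2 * B) ^ D * K) * (v m) ^ (-p))) ≠ ⊤ := by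
    rw [← ENNReal.ofReal_tsum_of_nonneg hnn hsum]
    exact ENNReal.ofReal_ne_top
  have hbound : ∀ n : ℕ, (∑' q : Σ i : ℕ, (U (n + i)),
      Metric.ediam (Metric.closedBall (f (q.2 : T)) (B * (v (n + q.1)) ^ (-η))) ^ D) ≤
      ∑' m : ℕ, ENNReal.ofReal (((2 * B) ^ D * K) * (v m) ^ (-p)) := by
    intro n
    rw [ENNReal.tsum_sigma']
    calc (∑' i : ℕ, ∑' x : (U (n + i)),
        Metric.ediam (Metric.closedBall (f (x : T)) (B * (v (n + i)) ^ (-η))) ^ D)
        ≤ ∑' i : ℕ, ENNReal.ofReal (((2 * B) ^ D * K) * (v (n + i)) ^ (-p)) := by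
          apply ENNReal.tsum_le_tsum
          intro i
          have h1 : ∀ x : (U (n + i)),
              Metric.ediam (Metric.closedBall (f (x : T)) (B * (v (n + i)) ^ (-η))) ^ D ≤
                ENNReal.ofReal ((r0 (n + i)) ^ D) := by
            intro x
            rw [← ENNReal.ofReal_rpow_of_pos (hr0p _)]
            exact ENNReal.rpow_le_rpow (hd n ⟨i, x⟩) hD0.le
          refine (ENNReal.tsum_le_tsum h1).trans ?_
          rw [tsum_fintype]
          simp only [Finset.sum_const, Finset.card_univ, Fintype.card_coe, nsmul_eq_mul]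
          rw [← ENNReal.ofReal_natCast, ← ENNReal.ofReal_mul (by positivity)]
          apply ENNReal.ofReal_le_ofReal
          exact hlev (n + i)
      _ ≤ ∑' m : ℕ, ENNReal.ofReal (((2 * B) ^ D * K) * (v m) ^ (-p)) :=
          ENNReal.tsum_comp_le_tsum_of_injective (f := fun i : ℕ => n + i)
            (fun a b h => by simpa using h) (fun m : ℕ => ENNReal.ofReal (((2 * B) ^ D * K) * (v m) ^ (-p)))
  refine ne_top_of_le_ne_top htot ?_
  apply Filter.liminf_le_of_le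
  · isBoundedDefault
  · intro b hb
    obtain ⟨n, hn⟩ := hb.exists
    exact hn.trans (hbound n)

/-- the points close to members of `S n` for infinitely many `n`, in a metric space -/
theorem nearX {X : Type} [MetricSpace X] [MeasurableSpace X] [BorelSpace X] {T : Type} (S : ℕ → Set T) (f : T → X)
    {v : ℕ → ℝ} {s τ η B : ℝ} (hv : ∀ n, 1 ≤ v n) (hτ : 0 ≤ τ) (hE : ExpLe v τ) (hs : 0 ≤ s) (hη : 0 < η)
    (hB : 0 < B)
    (hS : ∀ ε : ℝ, 0 < ε → ∃ C : ℝ, ∀ n : ℕ, (S n).Finite ∧ ((S n).ncard : ℝ) ≤ C * (v n) ^ (s + ε)) :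
    ∃ E : Set X, dimH E ≤ ENNReal.ofReal ((s + τ) / η) ∧ ∀ x : X, x ∉ E →
      ∃ n₀ : ℕ, ∀ n : ℕ, n₀ ≤ n → ∀ t ∈ S n, B * (v n) ^ (-η) < dist (f t) x := by
  refine ⟨{x : X | ∀ n1 : ℕ, ∃ n : ℕ, n1 ≤ n ∧ ∃ t ∈ S n, dist (f t) x ≤ B * (v n) ^ (-η)}, ?_, fun x hx => ?_⟩
  · have hall : ∀ m : ℕ, dimH {x : X | ∀ n1 : ℕ, ∃ n : ℕ, n1 ≤ n ∧ ∃ t ∈ S n, dist (f t) x ≤ B * (v n) ^ (-η)} ≤
        ENNReal.ofReal ((s + τ + 2 * (1 / ((m : ℝ) + 1))) / η) := by
      intro m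
      have hm : (0 : ℝ) < 1 / ((m : ℝ) + 1) := by positivity
      obtain ⟨C, hC⟩ := hS (1 / ((m : ℝ) + 1)) hm
      refine near_dim S f (s := s + 1 / ((m : ℝ) + 1)) (K := |C|) hv hτ hE (by positivity) hη hB (abs_nonneg _) ?_
        (fun n => ⟨(hC n).1, (hC n).2.trans (mul_le_mul_of_nonneg_right (le_abs_self _)
          (Real.rpow_nonneg (zero_le_one.trans (hv n)) _))⟩)
      rw [div_mul_cancel₀ _ hη.ne']
      linarith
    have hlim : Tendsto (fun m : ℕ => ENNReal.ofReal ((s + τ + 2 * (1 / ((m : ℝ) + 1))) / η)) atTop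
        (𝓝 (ENNReal.ofReal ((s + τ + 2 * 0) / η))) :=
      ENNReal.tendsto_ofReal (((((tendsto_one_div_add_atTop_nhds_zero_nat (𝕜 := ℝ)).const_mul 2).const_add
        (s + τ))).div_const η)
    rw [mul_zero, add_zero] at hlim
    exact ge_of_tendsto' hlim hall
  · rw [Set.mem_ofPred_eq] at hx
    push Not at hx
    exact hx

end Pool.Agent.X134.Win
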