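import Mathlib
import Pool.Agent.X134.Win.NearX

/-!
# Exceptional sets of dimension zero in metric spaces
-/

set_option autoImplicit false

namespace Pool.Agent.X134.Win

open MeasureTheory Filter Topology
open scoped ENNReal NNReal

theorem near_zero {X : Type} [MetricSpace X] [MeasurableSpace X] [BorelSpace X] {T : Type} (S : ℕ → ℕ → Set T)
    (f : T → X) (K : ℝ) (hK : 0 ≤ K)
    (hS : ∀ m : ℕ, ∃ C : ℝ, ∀ n : ℕ, (S m n).Finite ∧ ((S m n).ncard : ℝ) ≤ C * two n ^ (K * (1 / ((m : ℝ) + 1)))) :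
    ∃ E : Set X, dimH E = 0 ∧ ∀ x : X, x ∉ E → ∀ η : ℝ, 0 < η → ∀ m₁ : ℕ, ∃ m : ℕ, m₁ ≤ m ∧ ∃ n₀ : ℕ,
      ∀ n : ℕ, n₀ ≤ n → ∀ t ∈ S m n, 2 * (two n) ^ (-η) < dist (f t) x := by
  have he : ∀ m : ℕ, (0 : ℝ) < 1 / ((m : ℝ) + 1) := fun m => by positivity
  have hex : ∀ j m : ℕ, ∃ E : Set X,
      dimH E ≤ ENNReal.ofReal ((K * (1 / ((m : ℝ) + 1)) + 0) / (1 / ((j : ℝ) + 1))) ∧
      ∀ x : X, x ∉ E → ∃ n₀ : ℕ, ∀ n : ℕ, n₀ ≤ n → ∀ t ∈ S m n,
        2 * (two n) ^ (-(1 / ((j : ℝ) + 1))) < dist (f t) x := by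
    intro j m
    obtain ⟨C, hC⟩ := hS m
    refine nearX (S m) f one_le_two le_rfl expLe_two (by positivity) (he j) two_pos
      (fun ε hε => ⟨|C|, fun n => ⟨(hC n).1, (hC n).2.trans ?_⟩⟩)
    calc C * two n ^ (K * (1 / ((m : ℝ) + 1))) ≤ |C| * two n ^ (K * (1 / ((m : ℝ) + 1))) :=
          mul_le_mul_of_nonneg_right (le_abs_self _) (Real.rpow_nonneg (zero_le_one.trans (one_le_two n)) _)
      _ ≤ |C| * two n ^ (K * (1 / ((m : ℝ) + 1)) + ε) :=
          mul_le_mul_of_nonneg_left (Real.rpow_le_rpow_of_exponent_le (one_le_two n) (by linarith)) (abs_nonneg _)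
  choose E hE1 hE2 using hex
  refine ⟨⋃ j : ℕ, ⋃ k : ℕ, ⋂ m : ℕ, E j (k + m), ?_, fun x hx η hη m₁ => ?_⟩
  · refine le_antisymm ?_ zero_le
    rw [dimH_iUnion]
    refine iSup_le fun j => ?_
    rw [dimH_iUnion]
    refine iSup_le fun k => ?_
    have hlim : Tendsto (fun m : ℕ => ENNReal.ofReal ((K * (1 / (((k + m : ℕ) : ℝ) + 1)) + 0) / (1 / ((j : ℝ) + 1))))
        atTop (𝓝 0) := by
      rw [← ENNReal.ofReal_zero]
      refine ENNReal.tendsto_ofReal ?_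
      have h1 : Tendsto (fun m : ℕ => (((k + m : ℕ) : ℝ) + 1)) atTop atTop := by
        refine tendsto_atTop_add_const_right _ _ ?_
        refine tendsto_natCast_atTop_atTop.comp ?_
        exact tendsto_atTop_mono (fun m => Nat.le_add_left m k) tendsto_id
      have h2 := (((h1.const_div_atTop 1).const_mul K).add_const 0).div_const (1 / ((j : ℝ) + 1))
      simpa using h2
    exact ge_of_tendsto' hlim fun m => (dimH_mono (Set.iInter_subset _ m)).trans (hE1 j (k + m))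
  · obtain ⟨j, hj⟩ := exists_nat_gt (1 / η)
    have h1 : x ∉ ⋂ m : ℕ, E j (m₁ + m) := fun h => hx (Set.mem_iUnion.2 ⟨j, Set.mem_iUnion.2 ⟨m₁, h⟩⟩)
    rw [Set.mem_iInter] at h1
    push Not at h1
    obtain ⟨m, hm⟩ := h1
    obtain ⟨n0, hn0⟩ := hE2 j (m₁ + m) x hm
    have hηj : 1 / ((j : ℝ) + 1) ≤ η := by
      rw [div_le_iff₀ (by positivity)]
      rw [div_lt_iff₀ hη] at hj
      nlinarith
    refine ⟨m₁ + m, Nat.le_add_right _ _, n0, fun n hn t ht => lt_of_le_of_lt ?_ (hn0 n hn t ht)⟩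
    exact mul_le_mul_of_nonneg_left (Real.rpow_le_rpow_of_exponent_le (one_le_two n) (by linarith)) (by norm_num)

/-- **Approximations of a point of a metric space.** -/
theorem targetsX {X : Type} [MetricSpace X] [MeasurableSpace X] [BorelSpace X] {T : Type} (f : T → X) (h : T → ℝ)
    (Good : ℕ → T → Prop) (H : FewBad h Good) :
    ∃ E : Set X, dimH E = 0 ∧ ∀ x : X, x ∉ E → ∀ η : ℝ, 0 < η → ∀ ε : ℝ, 0 < ε → ∃ h₀ : ℝ, ∀ y : T,
      h₀ ≤ h y → dist (f y) x ≤ h y ^ (-η) → ∃ N : ℕ, 1 ≤ N ∧ (N : ℝ) ≤ h y ^ ε ∧ Good N y := by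
  have he : ∀ m : ℕ, (0 : ℝ) < 1 / ((m : ℝ) + 1) := fun m => by positivity
  choose C hC using fun m : ℕ => H (1 / ((m : ℝ) + 1)) (he m)
  choose N hN1 hNC Z hZ hgood using fun (m n : ℕ) => hC m (two n) (one_le_two n)
  obtain ⟨E, hE1, hE2⟩ := near_zero (fun m n => (Z m n : Set T)) f 1 zero_le_one
    (fun m => ⟨C m, fun n => ⟨(Z m n).finite_toSet, by rw [Set.ncard_coe_finset, one_mul]; exact hZ m n⟩⟩)
  refine ⟨E, hE1, fun x hx η hη ε hε => ?_⟩
  obtain ⟨k, hk⟩ := exists_nat_gt (1 / (ε / 2))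
  obtain ⟨m, hmk, n0, hn0⟩ := hE2 x hx (min η 1) (lt_min hη one_pos) k
  have hεk : 1 / ((m : ℝ) + 1) ≤ ε / 2 := by
    rw [div_le_iff₀ (by positivity)]
    rw [div_lt_iff₀ (by positivity)] at hk
    have : (k : ℝ) ≤ m := by exact_mod_cast hmk
    nlinarith
  have h2 : ∀ᶠ y : ℝ in atTop, |C m| * 2 ^ (ε / 2) ≤ y ^ (ε / 2) :=
    (tendsto_rpow_atTop (by positivity : 0 < ε / 2)).eventually_ge_atTop _
  obtain ⟨y0, hy0⟩ := eventually_atTop.1 (h2.and (eventually_ge_atTop (max 1 (two n0))))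
  refine ⟨y0, fun y hy hxy => ?_⟩
  obtain ⟨h3, h4⟩ := hy0 (h y) hy
  have hy1 : 1 ≤ h y := le_trans (le_max_left _ _) h4
  have hy2 : two n0 ≤ h y := le_trans (le_max_right _ _) h4
  have hyp : 0 < h y := by linarith
  obtain ⟨n, hn1, hn2⟩ := exists_two (h y) hy1
  have hnn : n0 ≤ n := by
    by_contra hcon
    rw [not_le] at hcon
    have h5 : two n < two n0 := pow_lt_pow_right₀ (by norm_num) hcon
    linarith
  have hnp : 0 < two n := lt_of_lt_of_le one_pos (one_le_two n)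
  have hnot : y ∉ Z m n := by
    intro hmem
    have h5 := hn0 n hnn y (Finset.mem_coe.2 hmem)
    have h6 := rpow_le_two n hy1 hη.le hn2
    linarith
  refine ⟨N m n, hN1 _ _, (hNC m n).trans ?_, hgood m n y hn1 hnot⟩
  calc C m * two n ^ (1 / ((m : ℝ) + 1)) ≤ |C m| * two n ^ (1 / ((m : ℝ) + 1)) :=
        mul_le_mul_of_nonneg_right (le_abs_self _) (Real.rpow_nonneg hnp.le _)
    _ ≤ |C m| * two n ^ (ε / 2) :=
        mul_le_mul_of_nonneg_left (Real.rpow_le_rpow_of_exponent_le (one_le_two n) hεk) (abs_nonneg _)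
    _ ≤ |C m| * (2 * h y) ^ (ε / 2) :=
        mul_le_mul_of_nonneg_left (Real.rpow_le_rpow hnp.le hn2 (by linarith)) (abs_nonneg _)
    _ = |C m| * 2 ^ (ε / 2) * h y ^ (ε / 2) := by
        rw [Real.mul_rpow (by norm_num) hyp.le, mul_assoc]
    _ ≤ h y ^ (ε / 2) * h y ^ (ε / 2) := mul_le_mul_of_nonneg_right h3 (by positivity)
    _ = h y ^ ε := by rw [← Real.rpow_add hyp]; congr 1; ring

/-- **Families with coefficients of small height near a point of a metric space.** -/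
theorem near_familyX {X : Type} [MetricSpace X] [MeasurableSpace X] [BorelSpace X] {T : Type} (f : T → X) (r : ℕ)
    (F : ℕ → ℕ → (Fin r → ℚ) → Set T)
    (hF : ∀ m : ℕ, ∃ C : ℝ, ∀ (n : ℕ) (u : Fin r → ℚ), (F m n u).Finite ∧
      ((F m n u).ncard : ℝ) ≤ C * two n ^ (1 / ((m : ℝ) + 1))) :
    ∃ E : Set X, dimH E = 0 ∧ ∀ x : X, x ∉ E → ∀ η : ℝ, 0 < η → ∀ m₁ : ℕ, ∃ m : ℕ, m₁ ≤ m ∧ ∃ n₀ : ℕ,
      ∀ n : ℕ, n₀ ≤ n → ∀ u : Fin r → ℚ, (∀ i, (ht (u i) : ℝ) ≤ two n ^ (1 / ((m : ℝ) + 1))) → ∀ t ∈ F m n u,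
        2 * (two n) ^ (-η) < dist (f t) x := by
  have he : ∀ m : ℕ, (0 : ℝ) < 1 / ((m : ℝ) + 1) := fun m => by positivity
  choose C hC using hF
  set R : ℕ → ℕ → ℕ := fun m n => ⌊two n ^ (1 / ((m : ℝ) + 1))⌋₊ with hR
  have hR1 : ∀ m n, 1 ≤ R m n := fun m n => by
    rw [hR]
    exact Nat.one_le_floor_iff _ |>.2 (Real.one_le_rpow (one_le_two n) (he m).le)
  have hR2 : ∀ m n, (R m n : ℝ) ≤ two n ^ (1 / ((m : ℝ) + 1)) := fun m n =>
    Nat.floor_le (Real.rpow_nonneg (zero_le_one.trans (one_le_two n)) _)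
  obtain ⟨E, hE1, hE2⟩ := near_zero
    (fun m n => {t | ∃ u : Fin r → ℚ, (∀ i, u i ∈ box (R m n)) ∧ t ∈ F m n u}) f (2 * r + 1) (by positivity)
    (fun m => ⟨3 ^ r * |C m|, fun n => by
      have hnp : 0 < two n := lt_of_lt_of_le one_pos (one_le_two n)
      have h1 := union_count r (box (R m n)) (F m n) (|C m| * two n ^ (1 / ((m : ℝ) + 1))) (by positivity)
        (fun u _ => ⟨(hC m n u).1, (hC m n u).2.trans
          (mul_le_mul_of_nonneg_right (le_abs_self _) (Real.rpow_nonneg hnp.le _))⟩)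
      refine ⟨h1.1, h1.2.trans (le_trans
        (b := (3 * two n ^ (2 * (1 / ((m : ℝ) + 1)))) ^ r * (|C m| * two n ^ (1 / ((m : ℝ) + 1)))) ?_ (le_of_eq ?_))⟩
      · have h2 : ((box (R m n)).card : ℝ) ≤ 3 * two n ^ (2 * (1 / ((m : ℝ) + 1))) := by
          refine (card_box _ (hR1 m n)).trans ?_
          refine mul_le_mul_of_nonneg_left ?_ (by norm_num)
          calc (R m n : ℝ) ^ 2 ≤ (two n ^ (1 / ((m : ℝ) + 1))) ^ 2 :=
                pow_le_pow_left₀ (Nat.cast_nonneg _) (hR2 m n) 2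
            _ = _ := by rw [← Real.rpow_natCast, ← Real.rpow_mul hnp.le]; congr 1; push_cast; ring
        exact mul_le_mul_of_nonneg_right (pow_le_pow_left₀ (Nat.cast_nonneg _) h2 r) (by positivity)
      · rw [mul_pow, ← Real.rpow_natCast (two n ^ (2 * (1 / ((m : ℝ) + 1)))), ← Real.rpow_mul hnp.le,
          show (2 * (r : ℝ) + 1) * (1 / ((m : ℝ) + 1)) = 2 * (1 / ((m : ℝ) + 1)) * (r : ℝ) + 1 / ((m : ℝ) + 1) by ring,
          Real.rpow_add hnp]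
        ring⟩)
  refine ⟨E, hE1, fun x hx η hη m₁ => ?_⟩
  obtain ⟨m, hm, n0, hn0⟩ := hE2 x hx η hη m₁
  refine ⟨m, hm, n0, fun n hn u hu t ht => hn0 n hn t ⟨u, fun i => mem_box _ _ ?_, ht⟩⟩
  exact Nat.le_floor (hu i)

/-- the height of an integer as a rational number -/
theorem ht_int (a : ℤ) (h : a ≠ 0) : ht (a : ℚ) = a.natAbs := by
  unfold ht
  rw [Rat.num_intCast, Rat.den_intCast]
  have : 0 < a.natAbs := Int.natAbs_pos.2 h
  omega

end Pool.Agent.X134.Win
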