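import Mathlib
import Pool.Agent.X174.WinVec

/-!
# Integral parameter vectors in cubes around the multiples of a vector

A set of integral vectors (or integral matrices) with `O(X ^ (s + ε))` elements in the boxes of size
`X` does not meet the cubes of side `2 (v n) ^ θ` around the points `α v n`, for all large `n`, if `α`
is not in a set of small Hausdorff dimension.
-/

set_option autoImplicit false

namespace Pool.Agent.X134.Win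

open MeasureTheory
open Pool.Agent.Y854.GM (ExpLe)

theorem boxZ_finite {q : ℕ} (X : ℝ) : {u : Fin q → ℤ | ∀ j, |(u j : ℝ)| ≤ X}.Finite := by
  refine (Set.Finite.pi' (t := fun _ : Fin q => {z : ℤ | |(z : ℝ)| ≤ X}) fun _ => ?_).subset
    (fun u hu j => hu j)
  refine (Set.finite_Icc (-⌈X⌉) ⌈X⌉).subset fun z hz => ?_
  have h1 : |(z : ℝ)| ≤ (⌈X⌉ : ℝ) := le_trans hz (Int.le_ceil X)
  obtain ⟨h2, h3⟩ := abs_le.1 h1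
  exact ⟨by exact_mod_cast h2, by exact_mod_cast h3⟩

theorem boxM_finite {q r : ℕ} (X : ℝ) : {u : Fin q → Fin r → ℤ | ∀ j b, |(u j b : ℝ)| ≤ X}.Finite := by
  refine (Set.Finite.pi' (t := fun _ : Fin q => {w : Fin r → ℤ | ∀ b, |(w b : ℝ)| ≤ X})
    fun _ => ?_).subset (fun u hu j => hu j)
  exact boxZ_finite X

theorem abs_le_floor {z : ℤ} {X : ℝ} (h : |(z : ℝ)| ≤ X) : |z| ≤ (⌊X⌋₊ : ℤ) := by
  have h6 : (z.natAbs : ℝ) ≤ X := by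
    rw [Nat.cast_natAbs, Int.cast_abs]
    exact h
  have h7 := Nat.le_floor h6
  rw [Int.abs_eq_natAbs]
  exact_mod_cast h7

/-- **Integral matrices in cubes.** -/
theorem membM {q r : ℕ} (P : (Fin q → Fin r → ℤ) → Prop) {s : ℝ} (hs : 0 ≤ s)
    (hP : ∀ ε : ℝ, 0 < ε → ∃ C : ℝ, ∀ H : ℕ, 1 ≤ H →
      ({u : Fin q → Fin r → ℤ | (∀ j b, |u j b| ≤ H) ∧ ¬ P u}.ncard : ℝ) ≤ C * (H : ℝ) ^ (s + ε))
    {v : ℕ → ℝ} {τ θ : ℝ} (hv : ∀ m, 1 ≤ v m) (hτ : 0 ≤ τ) (hE : ExpLe v τ) (hθ : θ < 1) :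
    ∃ E : Set (Fin q × Fin r → ℝ), dimH E ≤ ENNReal.ofReal ((s + τ) / (1 - θ)) ∧
      ∀ α : Fin q × Fin r → ℝ, α ∉ E → ∃ n₀ : ℕ, ∀ n : ℕ, n₀ ≤ n → ∀ u : Fin q → Fin r → ℤ,
        (∀ j b, |(u j b : ℝ) - α (j, b) * v n| ≤ (v n) ^ θ) → P u := by
  obtain ⟨E, h1, h2⟩ := Pool.Agent.X174.windowsVec {u : Fin q → Fin r → ℤ | ¬ P u}
    (fun u (p : Fin q × Fin r) => ((u p.1 p.2 : ℤ) : ℝ)) hv hτ hE hs hθ (by
      intro ε hε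
      obtain ⟨C, hC⟩ := hP ε hε
      refine ⟨|C|, fun X hX => ?_⟩
      have hX0 : 0 < X := by linarith
      have hfl : 1 ≤ ⌊X⌋₊ := (Nat.one_le_floor_iff X).2 hX
      have hfin : {u : Fin q → Fin r → ℤ | u ∈ {u : Fin q → Fin r → ℤ | ¬ P u} ∧
          ∀ p : Fin q × Fin r, |((u p.1 p.2 : ℤ) : ℝ)| ≤ X}.Finite :=
        (boxM_finite X).subset fun u hu j b => hu.2 (j, b)
      refine ⟨hfin, ?_⟩
      have hsub : {u : Fin q → Fin r → ℤ | u ∈ {u : Fin q → Fin r → ℤ | ¬ P u} ∧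
          ∀ p : Fin q × Fin r, |((u p.1 p.2 : ℤ) : ℝ)| ≤ X} ⊆
          {u : Fin q → Fin r → ℤ | (∀ j b, |u j b| ≤ (⌊X⌋₊ : ℤ)) ∧ ¬ P u} :=
        fun u hu => ⟨fun j b => abs_le_floor (hu.2 (j, b)), hu.1⟩
      have hfin2 : {u : Fin q → Fin r → ℤ | (∀ j b, |u j b| ≤ (⌊X⌋₊ : ℤ)) ∧ ¬ P u}.Finite := by
        refine (boxM_finite (⌊X⌋₊ : ℝ)).subset fun u hu j b => ?_
        have := hu.1 j b
        exact_mod_cast this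
      have h3 : (({u : Fin q → Fin r → ℤ | u ∈ {u : Fin q → Fin r → ℤ | ¬ P u} ∧
          ∀ p : Fin q × Fin r, |((u p.1 p.2 : ℤ) : ℝ)| ≤ X}.ncard : ℕ) : ℝ) ≤
          ({u : Fin q → Fin r → ℤ | (∀ j b, |u j b| ≤ (⌊X⌋₊ : ℤ)) ∧ ¬ P u}.ncard : ℝ) := by
        exact_mod_cast Set.ncard_le_ncard hsub hfin2
      refine h3.trans ((hC _ hfl).trans ?_)
      calc C * ((⌊X⌋₊ : ℕ) : ℝ) ^ (s + ε) ≤ |C| * ((⌊X⌋₊ : ℕ) : ℝ) ^ (s + ε) :=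
            mul_le_mul_of_nonneg_right (le_abs_self _) (Real.rpow_nonneg (Nat.cast_nonneg _) _)
        _ ≤ |C| * X ^ (s + ε) := mul_le_mul_of_nonneg_left (Real.rpow_le_rpow (Nat.cast_nonneg _)
            (Nat.floor_le hX0.le) (by positivity)) (abs_nonneg _))
  refine ⟨E, h1, fun α hα => ?_⟩
  obtain ⟨n₀, hn₀⟩ := h2 α hα
  refine ⟨n₀, fun n hn u hu => ?_⟩
  by_contra hcon
  exact hn₀ n hn u hcon fun p => hu p.1 p.2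

/-- the same for countably many properties at once -/
theorem membM_c {ι : Type} [Countable ι] {q r : ℕ} (P : ι → (Fin q → Fin r → ℤ) → Prop) {s : ℝ}
    (hs : 0 ≤ s)
    (hP : ∀ i, ∀ ε : ℝ, 0 < ε → ∃ C : ℝ, ∀ H : ℕ, 1 ≤ H →
      ({u : Fin q → Fin r → ℤ | (∀ j b, |u j b| ≤ H) ∧ ¬ P i u}.ncard : ℝ) ≤ C * (H : ℝ) ^ (s + ε))
    {v : ℕ → ℝ} {τ θ : ℝ} (hv : ∀ m, 1 ≤ v m) (hτ : 0 ≤ τ) (hE : ExpLe v τ) (hθ : θ < 1) :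
    ∃ E : Set (Fin q × Fin r → ℝ), dimH E ≤ ENNReal.ofReal ((s + τ) / (1 - θ)) ∧
      ∀ α : Fin q × Fin r → ℝ, α ∉ E → ∀ i, ∃ n₀ : ℕ, ∀ n : ℕ, n₀ ≤ n → ∀ u : Fin q → Fin r → ℤ,
        (∀ j b, |(u j b : ℝ) - α (j, b) * v n| ≤ (v n) ^ θ) → P i u := by
  choose E h1 h2 using fun i => membM (P i) hs (hP i) hv hτ hE hθ
  refine ⟨⋃ i, E i, ?_, fun a haE i => h2 i a fun h => haE (Set.mem_iUnion.2 ⟨i, h⟩)⟩
  rw [dimH_iUnion]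
  exact iSup_le h1

/-- **Integral vectors in cubes.** -/
theorem membV {q : ℕ} (P : (Fin q → ℤ) → Prop) {s : ℝ} (hs : 0 ≤ s)
    (hP : ∀ ε : ℝ, 0 < ε → ∃ C : ℝ, ∀ H : ℕ, 1 ≤ H →
      ({u : Fin q → ℤ | (∀ j, |u j| ≤ H) ∧ ¬ P u}.ncard : ℝ) ≤ C * (H : ℝ) ^ (s + ε))
    {v : ℕ → ℝ} {τ θ : ℝ} (hv : ∀ m, 1 ≤ v m) (hτ : 0 ≤ τ) (hE : ExpLe v τ) (hθ : θ < 1) :
    ∃ E : Set (Fin q → ℝ), dimH E ≤ ENNReal.ofReal ((s + τ) / (1 - θ)) ∧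
      ∀ α : Fin q → ℝ, α ∉ E → ∃ n₀ : ℕ, ∀ n : ℕ, n₀ ≤ n → ∀ u : Fin q → ℤ,
        (∀ j, |(u j : ℝ) - α j * v n| ≤ (v n) ^ θ) → P u := by
  obtain ⟨E, h1, h2⟩ := Pool.Agent.X174.windowsVec {u : Fin q → ℤ | ¬ P u}
    (fun u (p : Fin q) => ((u p : ℤ) : ℝ)) hv hτ hE hs hθ (by
      intro ε hε
      obtain ⟨C, hC⟩ := hP ε hε
      refine ⟨|C|, fun X hX => ?_⟩
      have hX0 : 0 < X := by linarith
      have hfl : 1 ≤ ⌊X⌋₊ := (Nat.one_le_floor_iff X).2 hX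
      have hfin : {u : Fin q → ℤ | u ∈ {u : Fin q → ℤ | ¬ P u} ∧
          ∀ p : Fin q, |((u p : ℤ) : ℝ)| ≤ X}.Finite :=
        (boxZ_finite X).subset fun u hu j => hu.2 j
      refine ⟨hfin, ?_⟩
      have hsub : {u : Fin q → ℤ | u ∈ {u : Fin q → ℤ | ¬ P u} ∧
          ∀ p : Fin q, |((u p : ℤ) : ℝ)| ≤ X} ⊆
          {u : Fin q → ℤ | (∀ j, |u j| ≤ (⌊X⌋₊ : ℤ)) ∧ ¬ P u} :=
        fun u hu => ⟨fun j => abs_le_floor (hu.2 j), hu.1⟩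
      have hfin2 : {u : Fin q → ℤ | (∀ j, |u j| ≤ (⌊X⌋₊ : ℤ)) ∧ ¬ P u}.Finite := by
        refine (boxZ_finite (⌊X⌋₊ : ℝ)).subset fun u hu j => ?_
        have := hu.1 j
        exact_mod_cast this
      have h3 : (({u : Fin q → ℤ | u ∈ {u : Fin q → ℤ | ¬ P u} ∧
          ∀ p : Fin q, |((u p : ℤ) : ℝ)| ≤ X}.ncard : ℕ) : ℝ) ≤
          ({u : Fin q → ℤ | (∀ j, |u j| ≤ (⌊X⌋₊ : ℤ)) ∧ ¬ P u}.ncard : ℝ) := by
        exact_mod_cast Set.ncard_le_ncard hsub hfin2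
      refine h3.trans ((hC _ hfl).trans ?_)
      calc C * ((⌊X⌋₊ : ℕ) : ℝ) ^ (s + ε) ≤ |C| * ((⌊X⌋₊ : ℕ) : ℝ) ^ (s + ε) :=
            mul_le_mul_of_nonneg_right (le_abs_self _) (Real.rpow_nonneg (Nat.cast_nonneg _) _)
        _ ≤ |C| * X ^ (s + ε) := mul_le_mul_of_nonneg_left (Real.rpow_le_rpow (Nat.cast_nonneg _)
            (Nat.floor_le hX0.le) (by positivity)) (abs_nonneg _))
  refine ⟨E, h1, fun α hα => ?_⟩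
  obtain ⟨n₀, hn₀⟩ := h2 α hα
  refine ⟨n₀, fun n hn u hu => ?_⟩
  by_contra hcon
  exact hn₀ n hn u hcon fun p => hu p

/-- the same for countably many properties at once -/
theorem membV_c {ι : Type} [Countable ι] {q : ℕ} (P : ι → (Fin q → ℤ) → Prop) {s : ℝ}
    (hs : 0 ≤ s)
    (hP : ∀ i, ∀ ε : ℝ, 0 < ε → ∃ C : ℝ, ∀ H : ℕ, 1 ≤ H →
      ({u : Fin q → ℤ | (∀ j, |u j| ≤ H) ∧ ¬ P i u}.ncard : ℝ) ≤ C * (H : ℝ) ^ (s + ε))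
    {v : ℕ → ℝ} {τ θ : ℝ} (hv : ∀ m, 1 ≤ v m) (hτ : 0 ≤ τ) (hE : ExpLe v τ) (hθ : θ < 1) :
    ∃ E : Set (Fin q → ℝ), dimH E ≤ ENNReal.ofReal ((s + τ) / (1 - θ)) ∧
      ∀ α : Fin q → ℝ, α ∉ E → ∀ i, ∃ n₀ : ℕ, ∀ n : ℕ, n₀ ≤ n → ∀ u : Fin q → ℤ,
        (∀ j, |(u j : ℝ) - α j * v n| ≤ (v n) ^ θ) → P i u := by
  choose E h1 h2 using fun i => membV (P i) hs (hP i) hv hτ hE hθ
  refine ⟨⋃ i, E i, ?_, fun a haE i => h2 i a fun h => haE (Set.mem_iUnion.2 ⟨i, h⟩)⟩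
  rw [dimH_iUnion]
  exact iSup_le h1

end Pool.Agent.X134.Win
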