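import Mathlib

/-!
# The number fields inside a fixed algebraic closure of `ℚ` form a countable set
-/

set_option autoImplicit false

namespace Pool.Agent.X134.Win

open IntermediateField

/-- the number fields inside a fixed algebraic closure of the rationals -/
abbrev NF : Type := {F : IntermediateField ℚ (AlgebraicClosure ℚ) // FiniteDimensional ℚ F}

instance (F : NF) : NumberField F.1 :=
  { to_charZero := inferInstance
    to_finiteDimensional := F.2 }

theorem countable_closure : Countable (AlgebraicClosure ℚ) := by
  have h : (Set.univ : Set (AlgebraicClosure ℚ)).Countable := by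
    refine (Algebraic.countable ℚ (AlgebraicClosure ℚ)).mono fun x _ => ?_
    exact (AlgebraicClosure.isAlgebraic ℚ).isAlgebraic x
  exact Set.countable_univ_iff.1 h

instance : Countable NF := by
  have := countable_closure
  have h : ∀ F : NF, ∃ s : Finset (AlgebraicClosure ℚ), adjoin ℚ (s : Set (AlgebraicClosure ℚ)) = F.1 := by
    rintro ⟨F, hF⟩
    have hfg : F.toSubalgebra.FG := by
      rw [← Subalgebra.fg_top]
      have : Algebra.FiniteType ℚ F.toSubalgebra := by
        have : Module.Finite ℚ F.toSubalgebra := hF
        infer_instance
      exact this.out
    obtain ⟨s, hs⟩ := fg_of_fg_toSubalgebra F hfg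
    exact ⟨s, hs⟩
  choose s hs using h
  have hinj : Function.Injective s := fun F G hFG => by
    apply Subtype.ext
    rw [← hs F, ← hs G, hFG]
  exact hinj.countable

theorem countable_field (K : Type) [Field K] [NumberField K] : Countable K := by
  have h : (Set.univ : Set K).Countable := by
    refine (Algebraic.countable ℚ K).mono fun x _ => ?_
    exact Algebra.IsAlgebraic.isAlgebraic x
  exact Set.countable_univ_iff.1 h

open NumberField in
theorem countable_integers (K : Type) [Field K] [NumberField K] : Countable (𝓞 K) := by
  have := countable_field K
  exact (RingOfIntegers.coe_injective (K := K)).countable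

theorem countable_mvPolynomial (σ R : Type) [CommRing R] [Countable σ] [Countable R] :
    Countable (MvPolynomial σ R) := by
  have h : Function.Injective (fun p : MvPolynomial σ R => (fun s => p.coeff s : (σ →₀ ℕ) → R)) := by
    intro p q hpq
    ext s
    exact congrFun hpq s
  have h2 : Function.Injective (fun p : MvPolynomial σ R =>
      (Finsupp.onFinset p.support (fun s => p.coeff s) (fun s hs => MvPolynomial.mem_support_iff.2 hs) :
        (σ →₀ ℕ) →₀ R)) := by
    intro p q hpq
    ext s
    exact DFunLike.congr_fun hpq s
  exact h2.countable

end Pool.Agent.X134.Win
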