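import Mathlib
import Pool.Agent.X134.Win.Memb
import Pool.Agent.X134.Win.NF

/-!
# Countability of the data of families of varieties with coefficients in a countable ring
-/

set_option autoImplicit false

namespace Pool.Agent.X134.Win

theorem countable_polynomial (R : Type) [CommRing R] [Countable R] : Countable (Polynomial R) := by
  have h2 : Function.Injective (fun p : Polynomial R =>
      (Finsupp.onFinset p.support (fun s => p.coeff s) (fun s hs => Polynomial.mem_support_iff.2 hs) :
        ℕ →₀ R)) := by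
    intro p q hpq
    ext s
    exact DFunLike.congr_fun hpq s
  exact h2.countable

theorem countable_polyPoly (R : Type) [CommRing R] [Countable R] :
    Countable (Polynomial (Polynomial R)) :=
  have := countable_polynomial R
  countable_polynomial _

theorem countable_form (R : Type) [CommRing R] [Countable R] (σ : Type) [Countable σ] (q : ℕ) :
    Countable (MvPolynomial σ (MvPolynomial (Fin q) R)) :=
  have := countable_mvPolynomial (Fin q) R
  countable_mvPolynomial _ _

/-- the finite subsets of a countable subset of a type -/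
theorem countable_finset {α : Type} {s : Set α} (hs : s.Countable) :
    Countable {Γ : Finset α // ∀ γ ∈ Γ, γ ∈ s} := by
  classical
  have : Countable s := hs.to_subtype
  refine Function.Injective.countable
    (f := fun Γ : {Γ : Finset α // ∀ γ ∈ Γ, γ ∈ s} => (Γ.1.attach.image
      (fun γ => (⟨γ.1, Γ.2 γ.1 γ.2⟩ : s)) : Finset s)) ?_
  intro Γ Γ' h
  apply Subtype.ext
  have h1 : ∀ Δ : {Γ : Finset α // ∀ γ ∈ Γ, γ ∈ s}, (Δ.1.attach.image
      (fun γ => (⟨γ.1, Δ.2 γ.1 γ.2⟩ : s))).image Subtype.val = Δ.1 := by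
    intro Δ
    ext x
    constructor
    · intro hx
      obtain ⟨y, hy, rfl⟩ := Finset.mem_image.1 hx
      obtain ⟨z, _, rfl⟩ := Finset.mem_image.1 hy
      exact z.2
    · intro hx
      exact Finset.mem_image.2 ⟨⟨x, Δ.2 x hx⟩, Finset.mem_image.2 ⟨⟨x, hx⟩, Finset.mem_attach _ _, rfl⟩, rfl⟩
  rw [← h1 Γ, ← h1 Γ']
  exact congrArg (fun t : Finset s => t.image Subtype.val) h

/-- the finite sets contained in a countable subset of a type -/
theorem countable_finsets {α : Type} {s : Set α} (hs : s.Countable) :
    Countable {Γ : Set α // Γ.Finite ∧ ∀ γ ∈ Γ, γ ∈ s} := by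
  have := countable_finset hs
  refine Function.Injective.countable
    (f := fun Γ : {Γ : Set α // Γ.Finite ∧ ∀ γ ∈ Γ, γ ∈ s} =>
      (⟨Γ.2.1.toFinset, fun γ hγ => Γ.2.2 γ (Γ.2.1.mem_toFinset.1 hγ)⟩ :
        {Γ : Finset α // ∀ γ ∈ Γ, γ ∈ s})) ?_
  intro Γ Γ' h
  apply Subtype.ext
  have h1 := congrArg (fun t : {Γ : Finset α // ∀ γ ∈ Γ, γ ∈ s} => (t.1 : Set α)) h
  simpa using h1

end Pool.Agent.X134.Win
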