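import Mathlib
import Pool.Agent.X134.Win.NearZ

/-!
# Exceptional sets of dimension zero for countably many families at once
-/

set_option autoImplicit false

namespace Pool.Agent.X134.Win

open MeasureTheory Filter Topology
open scoped ENNReal NNReal

theorem near_zero_c {X : Type} [MetricSpace X] [MeasurableSpace X] [BorelSpace X] {ι : Type} [Countable ι]
    {T : ι → Type} (S : ∀ i, ℕ → ℕ → Set (T i)) (f : ∀ i, T i → X) (K : ℝ) (hK : 0 ≤ K)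
    (hS : ∀ i, ∀ m : ℕ, ∃ C : ℝ, ∀ n : ℕ, (S i m n).Finite ∧
      ((S i m n).ncard : ℝ) ≤ C * two n ^ (K * (1 / ((m : ℝ) + 1)))) :
    ∃ E : Set X, dimH E = 0 ∧ ∀ x : X, x ∉ E → ∀ η : ℝ, 0 < η → ∀ m₁ : ℕ, ∃ m : ℕ, m₁ ≤ m ∧ ∀ i, ∃ n₀ : ℕ,
      ∀ n : ℕ, n₀ ≤ n → ∀ t ∈ S i m n, 2 * (two n) ^ (-η) < dist (f i t) x := by
  have he : ∀ m : ℕ, (0 : ℝ) < 1 / ((m : ℝ) + 1) := fun m => by positivity
  have hex : ∀ i, ∀ j m : ℕ, ∃ E : Set X,
      dimH E ≤ ENNReal.ofReal ((K * (1 / ((m : ℝ) + 1)) + 0) / (1 / ((j : ℝ) + 1))) ∧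
      ∀ x : X, x ∉ E → ∃ n₀ : ℕ, ∀ n : ℕ, n₀ ≤ n → ∀ t ∈ S i m n,
        2 * (two n) ^ (-(1 / ((j : ℝ) + 1))) < dist (f i t) x := by
    intro i j m
    obtain ⟨C, hC⟩ := hS i m
    refine nearX (S i m) (f i) one_le_two le_rfl expLe_two (by positivity) (he j) two_pos
      (fun ε hε => ⟨|C|, fun n => ⟨(hC n).1, (hC n).2.trans ?_⟩⟩)
    calc C * two n ^ (K * (1 / ((m : ℝ) + 1))) ≤ |C| * two n ^ (K * (1 / ((m : ℝ) + 1))) :=
          mul_le_mul_of_nonneg_right (le_abs_self _) (Real.rpow_nonneg (zero_le_one.trans (one_le_two n)) _)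
      _ ≤ |C| * two n ^ (K * (1 / ((m : ℝ) + 1)) + ε) :=
          mul_le_mul_of_nonneg_left (Real.rpow_le_rpow_of_exponent_le (one_le_two n) (by linarith)) (abs_nonneg _)
  choose E hE1 hE2 using hex
  refine ⟨⋃ j : ℕ, ⋃ k : ℕ, ⋂ m : ℕ, ⋃ i, E i j (k + m), ?_, fun x hx η hη m₁ => ?_⟩
  · refine le_antisymm ?_ zero_le
    rw [dimH_iUnion]
    refine iSup_le fun j => ?_
    rw [dimH_iUnion]
    refine iSup_le fun k => ?_
    have hlim : Tendsto (fun m : ℕ => ENNReal.ofReal ((K * (1 / (((k + m : ℕ) : ℝ) + 1)) + 0) / (1 / ((j : ℝ) + 1))))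
        atTop (𝓝 0) := by
      rw [← ENNReal.ofReal_zero]
      refine ENNReal.tendsto_ofReal ?_
      have h1 : Tendsto (fun m : ℕ => (((k + m : ℕ) : ℝ) + 1)) atTop atTop := by
        refine tendsto_atTop_add_const_right _ _ ?_
        refine tendsto_natCast_atTop_atTop.comp ?_
        exact tendsto_atTop_mono (fun m => Nat.le_add_left m k) tendsto_id
      have h2 := (((h1.const_div_atTop 1).const_mul K).add_const 0).div_const (1 / ((j : ℝ) + 1))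
      simpa using h2
    refine ge_of_tendsto' hlim fun m => (dimH_mono (Set.iInter_subset _ m)).trans ?_
    rw [dimH_iUnion]
    exact iSup_le fun i => hE1 i j (k + m)
  · obtain ⟨j, hj⟩ := exists_nat_gt (1 / η)
    have h1 : x ∉ ⋂ m : ℕ, ⋃ i, E i j (m₁ + m) := fun h => hx (Set.mem_iUnion.2 ⟨j, Set.mem_iUnion.2 ⟨m₁, h⟩⟩)
    rw [Set.mem_iInter] at h1
    push Not at h1
    obtain ⟨m, hm⟩ := h1
    have hηj : 1 / ((j : ℝ) + 1) ≤ η := by
      rw [div_le_iff₀ (by positivity)]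
      rw [div_lt_iff₀ hη] at hj
      nlinarith
    refine ⟨m₁ + m, Nat.le_add_right _ _, fun i => ?_⟩
    obtain ⟨n0, hn0⟩ := hE2 i j (m₁ + m) x (fun h => hm (Set.mem_iUnion.2 ⟨i, h⟩))
    refine ⟨n0, fun n hn t ht => lt_of_le_of_lt ?_ (hn0 n hn t ht)⟩
    exact mul_le_mul_of_nonneg_left (Real.rpow_le_rpow_of_exponent_le (one_le_two n) (by linarith)) (by norm_num)

/-- **Countably many families with coefficients of small height near a point of a metric space.** -/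
theorem near_family_c {X : Type} [MetricSpace X] [MeasurableSpace X] [BorelSpace X] {ι : Type} [Countable ι]
    {T : ι → Type} (f : ∀ i, T i → X) (r : ℕ)
    (F : ∀ i, ℕ → ℕ → (Fin r → ℚ) → Set (T i))
    (hF : ∀ i, ∀ m : ℕ, ∃ C : ℝ, ∀ (n : ℕ) (u : Fin r → ℚ), (F i m n u).Finite ∧
      ((F i m n u).ncard : ℝ) ≤ C * two n ^ (1 / ((m : ℝ) + 1))) :
    ∃ E : Set X, dimH E = 0 ∧ ∀ x : X, x ∉ E → ∀ η : ℝ, 0 < η → ∀ m₁ : ℕ, ∃ m : ℕ, m₁ ≤ m ∧ ∀ i, ∃ n₀ : ℕ,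
      ∀ n : ℕ, n₀ ≤ n → ∀ u : Fin r → ℚ, (∀ i, (ht (u i) : ℝ) ≤ two n ^ (1 / ((m : ℝ) + 1))) → ∀ t ∈ F i m n u,
        2 * (two n) ^ (-η) < dist (f i t) x := by
  have he : ∀ m : ℕ, (0 : ℝ) < 1 / ((m : ℝ) + 1) := fun m => by positivity
  choose C hC using hF
  set R : ℕ → ℕ → ℕ := fun m n => ⌊two n ^ (1 / ((m : ℝ) + 1))⌋₊ with hR
  have hR1 : ∀ m n, 1 ≤ R m n := fun m n => by
    rw [hR]
    exact Nat.one_le_floor_iff _ |>.2 (Real.one_le_rpow (one_le_two n) (he m).le)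
  have hR2 : ∀ m n, (R m n : ℝ) ≤ two n ^ (1 / ((m : ℝ) + 1)) := fun m n =>
    Nat.floor_le (Real.rpow_nonneg (zero_le_one.trans (one_le_two n)) _)
  obtain ⟨E, hE1, hE2⟩ := near_zero_c
    (fun i m n => {t | ∃ u : Fin r → ℚ, (∀ i, u i ∈ box (R m n)) ∧ t ∈ F i m n u}) f (2 * r + 1) (by positivity)
    (fun i m => ⟨3 ^ r * |C i m|, fun n => by
      have hnp : 0 < two n := lt_of_lt_of_le one_pos (one_le_two n)
      have h1 := union_count r (box (R m n)) (F i m n) (|C i m| * two n ^ (1 / ((m : ℝ) + 1))) (by positivity)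
        (fun u _ => ⟨(hC i m n u).1, (hC i m n u).2.trans
          (mul_le_mul_of_nonneg_right (le_abs_self _) (Real.rpow_nonneg hnp.le _))⟩)
      refine ⟨h1.1, h1.2.trans (le_trans
        (b := (3 * two n ^ (2 * (1 / ((m : ℝ) + 1)))) ^ r * (|C i m| * two n ^ (1 / ((m : ℝ) + 1)))) ?_ (le_of_eq ?_))⟩
      · have h2 : ((box (R m n)).card : ℝ) ≤ 3 * two n ^ (2 * (1 / ((m : ℝ) + 1))) := by
          refine (card_box _ (hR1 m n)).trans ?_
          refine mul_le_mul_of_nonneg_left ?_ (by norm_num)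
          calc (R m n : ℝ) ^ 2 ≤ (two n ^ (1 / ((m : ℝ) + 1))) ^ 2 :=
                pow_le_pow_left₀ (Nat.cast_nonneg _) (hR2 m n) 2
            _ = _ := by rw [← Real.rpow_natCast, ← Real.rpow_mul hnp.le]; congr 1; push_cast; ring
        exact mul_le_mul_of_nonneg_right (pow_le_pow_left₀ (Nat.cast_nonneg _) h2 r) (by positivity)
      · rw [mul_pow, ← Real.rpow_natCast (two n ^ (2 * (1 / ((m : ℝ) + 1)))), ← Real.rpow_mul hnp.le,
          show (2 * (r : ℝ) + 1) * (1 / ((m : ℝ) + 1)) = 2 * (1 / ((m : ℝ) + 1)) * (r : ℝ) + 1 / ((m : ℝ) + 1) by ring,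
          Real.rpow_add hnp]
        ring⟩)
  refine ⟨E, hE1, fun x hx η hη m₁ => ?_⟩
  obtain ⟨m, hm, hm2⟩ := hE2 x hx η hη m₁
  refine ⟨m, hm, fun i => ?_⟩
  obtain ⟨n0, hn0⟩ := hm2 i
  refine ⟨n0, fun n hn u hu t ht => hn0 n hn t ⟨u, fun i => mem_box _ _ ?_, ht⟩⟩
  exact Nat.le_floor (hu i)

theorem rpow_le_two' {Y η : ℝ} (n : ℕ) (hY : 1 ≤ Y) (hη : 0 ≤ η) (hn : two n ≤ 2 * Y) :
    Y ^ (-η) ≤ 2 ^ η * two n ^ (-η) := by
  have hnp : 0 < two n := lt_of_lt_of_le one_pos (one_le_two n)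
  have hYp : 0 < Y := by linarith
  calc Y ^ (-η) ≤ (two n / 2) ^ (-η) := by
        rw [Real.rpow_neg hYp.le, Real.rpow_neg (by positivity)]
        refine inv_anti₀ (by positivity) ?_
        exact Real.rpow_le_rpow (by positivity) (by linarith) hη
    _ = 2 ^ η * (two n) ^ (-η) := by
        rw [Real.div_rpow hnp.le (by norm_num), Real.rpow_neg (by norm_num : (0 : ℝ) ≤ 2), div_inv_eq_mul, mul_comm]

theorem le_of_two_le {n₀ n : ℕ} {Y : ℝ} (h1 : two n₀ ≤ Y) (h2 : Y ≤ two n) : n₀ ≤ n := by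
  by_contra hcon
  rw [not_le] at hcon
  have h5 : two n < two n₀ := pow_lt_pow_right₀ (by norm_num) hcon
  linarith

/-- **One exponent.** -/
theorem near_family_eps {X : Type} [MetricSpace X] [MeasurableSpace X] [BorelSpace X] {ι : Type} [Countable ι]
    {T : ι → Type} (f : ∀ i, T i → X) (r : ℕ) {ε η : ℝ} (hε : 0 < ε) (hη : 0 < η)
    (F : ∀ i, ℕ → (Fin r → ℚ) → Set (T i))
    (hF : ∀ i, ∃ C : ℝ, ∀ (n : ℕ) (u : Fin r → ℚ), (F i n u).Finite ∧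
      ((F i n u).ncard : ℝ) ≤ C * two n ^ ε) :
    ∃ E : Set X, dimH E ≤ ENNReal.ofReal ((2 * r + 1) * ε / η) ∧ ∀ x : X, x ∉ E → ∀ i, ∃ n₀ : ℕ,
      ∀ n : ℕ, n₀ ≤ n → ∀ u : Fin r → ℚ, (∀ i, (ht (u i) : ℝ) ≤ two n ^ ε) → ∀ t ∈ F i n u,
        2 ^ η * (two n) ^ (-η) < dist (f i t) x := by
  choose C hC using hF
  set R : ℕ → ℕ := fun n => ⌊two n ^ ε⌋₊ with hR
  have hR1 : ∀ n, 1 ≤ R n := fun n => by
    rw [hR]
    exact Nat.one_le_floor_iff _ |>.2 (Real.one_le_rpow (one_le_two n) hε.le)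
  have hR2 : ∀ n, (R n : ℝ) ≤ two n ^ ε := fun n =>
    Nat.floor_le (Real.rpow_nonneg (zero_le_one.trans (one_le_two n)) _)
  have hex : ∀ i, ∃ E : Set X, dimH E ≤ ENNReal.ofReal (((2 * r + 1) * ε + 0) / η) ∧ ∀ x : X, x ∉ E → ∃ n₀ : ℕ,
      ∀ n : ℕ, n₀ ≤ n → ∀ t ∈ {t | ∃ u : Fin r → ℚ, (∀ i, u i ∈ box (R n)) ∧ t ∈ F i n u},
        2 ^ η * (two n) ^ (-η) < dist (f i t) x := by
    intro i
    refine nearX (fun n => {t | ∃ u : Fin r → ℚ, (∀ i, u i ∈ box (R n)) ∧ t ∈ F i n u}) (f i) one_le_two le_rfl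
      expLe_two (by positivity) hη (by positivity) (fun δ hδ => ⟨3 ^ r * |C i|, fun n => ?_⟩)
    have hnp : 0 < two n := lt_of_lt_of_le one_pos (one_le_two n)
    have h1 := union_count r (box (R n)) (F i n) (|C i| * two n ^ ε) (by positivity)
      (fun u _ => ⟨(hC i n u).1, (hC i n u).2.trans
        (mul_le_mul_of_nonneg_right (le_abs_self _) (Real.rpow_nonneg hnp.le _))⟩)
    refine ⟨h1.1, h1.2.trans (le_trans
      (b := (3 * two n ^ (2 * ε)) ^ r * (|C i| * two n ^ ε)) ?_ (le_trans (le_of_eq ?_)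
      (mul_le_mul_of_nonneg_left (Real.rpow_le_rpow_of_exponent_le (y := (2 * r + 1) * ε) (one_le_two n)
        (by linarith)) (by positivity))))⟩
    · have h2 : ((box (R n)).card : ℝ) ≤ 3 * two n ^ (2 * ε) := by
        refine (card_box _ (hR1 n)).trans ?_
        refine mul_le_mul_of_nonneg_left ?_ (by norm_num)
        calc (R n : ℝ) ^ 2 ≤ (two n ^ ε) ^ 2 :=
              pow_le_pow_left₀ (Nat.cast_nonneg _) (hR2 n) 2
          _ = _ := by rw [← Real.rpow_natCast, ← Real.rpow_mul hnp.le]; congr 1; push_cast; ring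
      exact mul_le_mul_of_nonneg_right (pow_le_pow_left₀ (Nat.cast_nonneg _) h2 r) (by positivity)
    · rw [mul_pow, ← Real.rpow_natCast (two n ^ (2 * ε)), ← Real.rpow_mul hnp.le,
        show (2 * (r : ℝ) + 1) * ε = 2 * ε * (r : ℝ) + ε by ring, Real.rpow_add hnp]
      ring
  choose E hE1 hE2 using hex
  refine ⟨⋃ i, E i, ?_, fun x hx i => ?_⟩
  · rw [dimH_iUnion]
    refine iSup_le fun i => ?_
    have := hE1 i
    rwa [add_zero] at this
  · obtain ⟨n0, hn0⟩ := hE2 i x (fun h => hx (Set.mem_iUnion.2 ⟨i, h⟩))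
    refine ⟨n0, fun n hn u hu t ht => hn0 n hn t ⟨u, fun i => mem_box _ _ ?_, ht⟩⟩
    exact Nat.le_floor (hu i)

/-- **From small dimension to dimension zero.** -/
theorem zero_of_eps {X : Type} [MetricSpace X] [MeasurableSpace X] [BorelSpace X] (P : ℕ → ℝ → X → Prop)
    (hP : ∀ m η η' x, 0 < η' → η' ≤ η → P m η' x → P m η x)
    (h : ∀ m : ℕ, ∀ η : ℝ, 0 < η → ∃ E : Set X, dimH E ≤ ENNReal.ofReal (1 / ((m : ℝ) + 1) / η) ∧
      ∀ x : X, x ∉ E → P m η x) :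
    ∃ E : Set X, dimH E = 0 ∧ ∀ x : X, x ∉ E → ∀ η : ℝ, 0 < η → ∃ m : ℕ, P m η x := by
  have he : ∀ m : ℕ, (0 : ℝ) < 1 / ((m : ℝ) + 1) := fun m => by positivity
  have h' := fun m j : ℕ => h m (1 / ((j : ℝ) + 1)) (he j)
  choose E hE1 hE2 using h'
  refine ⟨⋃ j : ℕ, ⋂ m : ℕ, E m j, ?_, fun x hx η hη => ?_⟩
  · refine le_antisymm ?_ zero_le
    rw [dimH_iUnion]
    refine iSup_le fun j => ?_
    have hlim : Tendsto (fun m : ℕ => ENNReal.ofReal ((1 / ((m : ℝ) + 1)) / (1 / ((j : ℝ) + 1)))) atTop (𝓝 0) := by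
      rw [← ENNReal.ofReal_zero]
      refine ENNReal.tendsto_ofReal ?_
      have h3 := (tendsto_one_div_add_atTop_nhds_zero_nat (𝕜 := ℝ)).div_const (1 / ((j : ℝ) + 1))
      simpa using h3
    exact ge_of_tendsto' hlim fun m => (dimH_mono (Set.iInter_subset _ m)).trans (hE1 m j)
  · obtain ⟨j, hj⟩ := exists_nat_gt (1 / η)
    have h1 : x ∉ ⋂ m : ℕ, E m j := fun h => hx (Set.mem_iUnion.2 ⟨j, h⟩)
    rw [Set.mem_iInter] at h1
    push Not at h1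
    obtain ⟨m, hm⟩ := h1
    have hηj : 1 / ((j : ℝ) + 1) ≤ η := by
      rw [div_le_iff₀ (by positivity)]
      rw [div_lt_iff₀ hη] at hj
      nlinarith
    exact ⟨m, hP m _ _ x (he j) hηj (hE2 m j x hm)⟩

end Pool.Agent.X134.Win
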