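import Mathlib
import Pool.Agent.X134.Win.Memb
import Pool.Agent.X134.Win.NearC

/-!
# Integral vectors and matrices near generic targets
-/

set_option autoImplicit false

namespace Pool.Agent.X134.Win

open MeasureTheory Filter Topology
open scoped ENNReal NNReal

theorem exists_level {η : ℝ} (hη : 0 < η) (n₀ : ℕ) (H : ℕ) (hH : 2 ^ n₀ ≤ H) :
    ∃ n : ℕ, n₀ ≤ n ∧ (H : ℝ) ≤ two n ∧ (H : ℝ) ^ (-η) ≤ 2 ^ η * (two n) ^ (-η) := by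
  have hH1 : 1 ≤ H := le_trans Nat.one_le_two_pow hH
  have hH1' : (1 : ℝ) ≤ H := by exact_mod_cast hH1
  obtain ⟨n, hn1, hn2⟩ := exists_two (H : ℝ) hH1'
  refine ⟨n, le_of_two_le (n₀ := n₀) (Y := H) ?_ hn1, hn1, rpow_le_two' n hH1' hη.le hn2⟩
  rw [two]
  exact_mod_cast hH

/-- **Members of boxes near a point of a metric space.** -/
theorem nearT {T : Type} (Box : ℕ → Set T) (hmono : Monotone Box) (hfin : ∀ H, (Box H).Finite)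
    (P : T → Prop) {s : ℝ} (hs : 0 ≤ s)
    (hP : ∀ ε : ℝ, 0 < ε → ∃ C : ℝ, ∀ H : ℕ, 1 ≤ H →
      ({u : T | u ∈ Box H ∧ ¬ P u}.ncard : ℝ) ≤ C * (H : ℝ) ^ (s + ε))
    {X : Type} [MetricSpace X] [MeasurableSpace X] [BorelSpace X] (f : T → X)
    {η : ℝ} (hη : 0 < η) :
    ∃ E : Set X, dimH E ≤ ENNReal.ofReal (s / η) ∧
      ∀ x : X, x ∉ E → ∃ H₀ : ℕ, ∀ H : ℕ, H₀ ≤ H → ∀ u ∈ Box H,
        dist (f u) x ≤ (H : ℝ) ^ (-η) → P u := by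
  obtain ⟨E, h1, h2⟩ := nearX
    (fun n => {u : T | u ∈ Box (2 ^ n) ∧ ¬ P u}) f one_le_two
    le_rfl expLe_two hs hη (B := 2 ^ η) (by positivity) (by
      intro ε hε
      obtain ⟨C, hC⟩ := hP ε hε
      refine ⟨C, fun n => ⟨(hfin _).subset fun u hu => hu.1, ?_⟩⟩
      have h := hC (2 ^ n) Nat.one_le_two_pow
      rw [two]
      push_cast at h ⊢
      exact h)
  refine ⟨E, by rwa [add_zero] at h1, fun x hx => ?_⟩
  obtain ⟨n₀, hn₀⟩ := h2 x hx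
  refine ⟨2 ^ n₀, fun H hH u hu hd => ?_⟩
  obtain ⟨n, hn1, hn2, hn3⟩ := exists_level hη n₀ H hH
  by_contra hcon
  have h3 := hn₀ n hn1 u ⟨hmono ?_ hu, hcon⟩
  · exact absurd (hd.trans hn3) (not_le.2 h3)
  · rw [two] at hn2
    exact_mod_cast hn2

/-- the same for countably many properties and all the exponents larger than a given one at once -/
theorem nearT_all {ι : Type} [Countable ι] {T : Type} (Box : ℕ → Set T) (hmono : Monotone Box)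
    (hfin : ∀ H, (Box H).Finite) (P : ι → T → Prop) {s : ℝ} (hs : 0 ≤ s)
    (hP : ∀ i, ∀ ε : ℝ, 0 < ε → ∃ C : ℝ, ∀ H : ℕ, 1 ≤ H →
      ({u : T | u ∈ Box H ∧ ¬ P i u}.ncard : ℝ) ≤ C * (H : ℝ) ^ (s + ε))
    {X : Type} [MetricSpace X] (f : T → X) {η₀ : ℝ} (hη₀ : 0 ≤ η₀) :
    ∃ E : Set X, dimH E ≤ ENNReal.ofReal s / ENNReal.ofReal η₀ ∧
      ∀ x : X, x ∉ E → ∀ η : ℝ, η₀ < η → ∀ i, ∃ H₀ : ℕ, ∀ H : ℕ, H₀ ≤ H → ∀ u ∈ Box H,
        dist (f u) x ≤ (H : ℝ) ^ (-η) → P i u := by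
  let : MeasurableSpace X := borel X
  have : BorelSpace X := ⟨rfl⟩
  have he : ∀ m : ℕ, (0 : ℝ) < η₀ + 1 / ((m : ℝ) + 1) := fun m => by positivity
  choose E h1 h2 using fun (m : ℕ) (i : ι) => nearT Box hmono hfin (P i) hs (hP i) f (he m)
  refine ⟨⋃ m, ⋃ i, E m i, ?_, fun x hx η hη i => ?_⟩
  · rw [dimH_iUnion]
    refine iSup_le fun m => ?_
    rw [dimH_iUnion]
    refine iSup_le fun i => (h1 m i).trans ?_
    rw [ENNReal.ofReal_div_of_pos (he m)]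
    exact ENNReal.div_le_div_left (ENNReal.ofReal_le_ofReal (by
      have : (0 : ℝ) < 1 / ((m : ℝ) + 1) := by positivity
      linarith)) _
  · obtain ⟨m, hm⟩ := exists_nat_one_div_lt (sub_pos.2 hη)
    obtain ⟨H₀, hH₀⟩ := h2 m i x (fun h => hx (Set.mem_iUnion.2 ⟨m, Set.mem_iUnion.2 ⟨i, h⟩⟩))
    refine ⟨max H₀ 1, fun H hH u hu hd => hH₀ H (le_trans (le_max_left _ _) hH) u hu (hd.trans ?_)⟩
    have hH1 : (1 : ℝ) ≤ H := by exact_mod_cast le_trans (le_max_right _ _) hH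
    exact Real.rpow_le_rpow_of_exponent_le hH1 (by linarith)

/-- **Integral matrices near a point of a metric space.** -/
theorem nearM_all {ι : Type} [Countable ι] {q r : ℕ} (P : ι → (Fin q → Fin r → ℤ) → Prop) {s : ℝ}
    (hs : 0 ≤ s)
    (hP : ∀ i, ∀ ε : ℝ, 0 < ε → ∃ C : ℝ, ∀ H : ℕ, 1 ≤ H →
      ({u : Fin q → Fin r → ℤ | (∀ j b, |u j b| ≤ H) ∧ ¬ P i u}.ncard : ℝ) ≤ C * (H : ℝ) ^ (s + ε))
    {X : Type} [MetricSpace X] (f : (Fin q → Fin r → ℤ) → X)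
    {η₀ : ℝ} (hη₀ : 0 ≤ η₀) :
    ∃ E : Set X, dimH E ≤ ENNReal.ofReal s / ENNReal.ofReal η₀ ∧
      ∀ x : X, x ∉ E → ∀ η : ℝ, η₀ < η → ∀ i, ∃ H₀ : ℕ, ∀ H : ℕ, H₀ ≤ H → ∀ u : Fin q → Fin r → ℤ,
        (∀ j b, |u j b| ≤ (H : ℤ)) → dist (f u) x ≤ (H : ℝ) ^ (-η) → P i u := by
  refine nearT_all (fun H => {u : Fin q → Fin r → ℤ | ∀ j b, |u j b| ≤ (H : ℤ)})
    (fun H H' h u hu j b => (hu j b).trans (by exact_mod_cast h)) (fun H => ?_) P hs hP f hη₀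
  refine (boxM_finite (H : ℝ)).subset fun u hu j b => ?_
  have := hu j b
  exact_mod_cast this

/-- **Integral vectors near a point of a metric space.** -/
theorem nearV_all {ι : Type} [Countable ι] {q : ℕ} (P : ι → (Fin q → ℤ) → Prop) {s : ℝ}
    (hs : 0 ≤ s)
    (hP : ∀ i, ∀ ε : ℝ, 0 < ε → ∃ C : ℝ, ∀ H : ℕ, 1 ≤ H →
      ({u : Fin q → ℤ | (∀ j, |u j| ≤ H) ∧ ¬ P i u}.ncard : ℝ) ≤ C * (H : ℝ) ^ (s + ε))
    {X : Type} [MetricSpace X] (f : (Fin q → ℤ) → X)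
    {η₀ : ℝ} (hη₀ : 0 ≤ η₀) :
    ∃ E : Set X, dimH E ≤ ENNReal.ofReal s / ENNReal.ofReal η₀ ∧
      ∀ x : X, x ∉ E → ∀ η : ℝ, η₀ < η → ∀ i, ∃ H₀ : ℕ, ∀ H : ℕ, H₀ ≤ H → ∀ u : Fin q → ℤ,
        (∀ j, |u j| ≤ (H : ℤ)) → dist (f u) x ≤ (H : ℝ) ^ (-η) → P i u := by
  refine nearT_all (fun H => {u : Fin q → ℤ | ∀ j, |u j| ≤ (H : ℤ)})
    (fun H H' h u hu j => (hu j).trans (by exact_mod_cast h)) (fun H => ?_) P hs hP f hη₀
  refine (boxZ_finite (H : ℝ)).subset fun u hu j => ?_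
  have := hu j
  exact_mod_cast this

end Pool.Agent.X134.Win
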