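import Mathlib
import Pool.Agent.X134.Win.NF

/-!
# Countability of the set of all families over all number fields
-/

set_option autoImplicit false

namespace Pool.Agent.X134.Win

open NumberField IsDedekindDomain

instance (K : NF) : Countable (𝓞 K.1) := countable_integers K.1

instance (K : NF) (r n : ℕ) : Countable (MvPolynomial ((Fin r × Fin 3) ⊕ Fin (n + 1)) (𝓞 K.1)) :=
  countable_mvPolynomial _ _

/-- a number field, an elliptic curve, equations of a family, and further data in a countable set `X` -/
abbrev Idx (X : NF → Type) : Type := Σ K : NF, Σ r : ℕ, Σ n : ℕ, Σ q : ℕ, (𝓞 K.1 × 𝓞 K.1) ×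
  (Fin q → MvPolynomial ((Fin r × Fin 3) ⊕ Fin (n + 1)) (𝓞 K.1)) × X K

instance (X : NF → Type) [∀ K, Countable (X K)] : Countable (Idx X) := inferInstance

theorem countable_ideals (R : Type) [CommRing R] [IsNoetherianRing R] [Countable R] :
    Countable (Ideal R) := by
  have h : ∀ I : Ideal R, ∃ s : Finset R, Ideal.span (s : Set R) = I := fun I =>
    (isNoetherianRing_iff_ideal_fg R).1 inferInstance I
  choose s hs using h
  have hinj : Function.Injective s := fun I J hIJ => by rw [← hs I, ← hs J, hIJ]
  exact hinj.countable

instance (K : NF) : Countable (HeightOneSpectrum (𝓞 K.1)) := by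
  have := countable_ideals (𝓞 K.1)
  have hinj : Function.Injective (fun v : HeightOneSpectrum (𝓞 K.1) => v.asIdeal) :=
    fun v w h => HeightOneSpectrum.ext h
  exact hinj.countable

end Pool.Agent.X134.Win
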