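import Mathlib
import Pool.Agent.X174.WinVec
import Pool.Agent.X134.Win.NF

/-!
# Integral points in cubes outside of few hypersurfaces of bounded degree
-/

set_option autoImplicit false

namespace Pool.Agent.X134.Win

open MvPolynomial NumberField Height Height.AdmissibleAbsValues Finset MeasureTheory
open Pool.Agent.Y854.GM (ExpLe)

section height

variable {K : Type} [Field K] [NumberField K]

theorem multiset_prod_le {α : Type} (s : Multiset α) (f : α → ℝ) (B : ℝ) (h0 : ∀ a ∈ s, 0 ≤ f a)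
    (h : ∀ a ∈ s, f a ≤ B) : (s.map f).prod ≤ B ^ s.card ∧ 0 ≤ (s.map f).prod := by
  induction s using Multiset.induction_on with
  | empty => simp
  | cons a s ih =>
    obtain ⟨h1, h2⟩ := ih (fun b hb => h0 b (Multiset.mem_cons_of_mem hb))
      (fun b hb => h b (Multiset.mem_cons_of_mem hb))
    have ha0 := h0 a (Multiset.mem_cons_self a s)
    have ha := h a (Multiset.mem_cons_self a s)
    rw [Multiset.map_cons, Multiset.prod_cons, Multiset.card_cons, pow_succ']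
    exact ⟨mul_le_mul ha h1 h2 (ha0.trans ha), mul_nonneg ha0 h2⟩

theorem finprod_le_one_of {ι : Type} (f : ι → ℝ) (h0 : ∀ i, 0 ≤ f i) (h1 : ∀ i, f i ≤ 1) :
    ∏ᶠ i, f i ≤ 1 ∧ 0 ≤ ∏ᶠ i, f i :=
  finprod_induction (fun x : ℝ => x ≤ 1 ∧ 0 ≤ x) ⟨le_rfl, zero_le_one⟩
    (fun x y hx hy => ⟨mul_le_one₀ hx.1 hy.2 hy.1, mul_nonneg hx.2 hy.2⟩) fun i => ⟨h1 i, h0 i⟩

theorem arch_int (w : AbsoluteValue K ℝ)
    (hw : w ∈ (archAbsVal : Multiset (AbsoluteValue K ℝ))) (a : ℤ) : w (a : K) = |(a : ℝ)| := by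
  have h1 : IsInfinitePlace w := mem_multisetInfinitePlace.1 hw
  obtain ⟨v, rfl⟩ := (isInfinitePlace_iff w).1 h1
  have h2 := InfinitePlace.norm_embedding_eq v (a : K)
  have h3 : (v.val : AbsoluteValue K ℝ) (a : K) = v (a : K) := rfl
  rw [h3, ← h2, map_intCast, Complex.norm_intCast]

theorem nonarch_int (w : AbsoluteValue K ℝ)
    (hw : w ∈ (nonarchAbsVal : Set (AbsoluteValue K ℝ))) (a : ℤ) : w (a : K) ≤ 1 := by
  obtain ⟨v, rfl⟩ := hw
  have h := FinitePlace.norm_le_one K v ((a : ℤ) : 𝓞 K)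
  rwa [map_intCast] at h

/-- height of a vector of integers -/
theorem height_ints {ι : Type} [Finite ι] [Nonempty ι] (c : ι → ℤ) (B : ℝ)
    (h0 : (fun i => (c i : K)) ≠ 0) (hc : ∀ i, |(c i : ℝ)| ≤ B) :
    mulHeight (fun i => (c i : K)) ≤ B ^ totalWeight K := by
  rw [Height.mulHeight_eq h0]
  obtain ⟨h1, h1'⟩ := multiset_prod_le (archAbsVal : Multiset (AbsoluteValue K ℝ))
    (fun v => ⨆ i, v (c i : K)) B (fun v _ => Real.iSup_nonneg fun i => v.nonneg _)
    (fun v hv => ciSup_le fun i => by rw [arch_int v hv]; exact hc i)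
  obtain ⟨h2, h2'⟩ := finprod_le_one_of (fun v : (nonarchAbsVal : Set (AbsoluteValue K ℝ)) =>
    ⨆ i, v.val (c i : K)) (fun v => Real.iSup_nonneg fun i => v.val.nonneg _)
    (fun v => ciSup_le fun i => nonarch_int v.val v.2 _)
  have hB : 0 ≤ B ^ (archAbsVal : Multiset (AbsoluteValue K ℝ)).card := h1'.trans h1
  calc _ ≤ B ^ (archAbsVal : Multiset (AbsoluteValue K ℝ)).card * 1 := mul_le_mul h1 h2 h2' hB
    _ = _ := by rw [mul_one]; rfl

/-- number of the zeros of a form in a box -/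
theorem zeros_le {n k : ℕ} (X : ℕ) (f : MvPolynomial (Fin (n + 1)) K) (hf : f ≠ 0)
    (hk : f.IsHomogeneous k) :
    {y : Fin (n + 1) → ℤ | (∀ j, |y j| ≤ X) ∧ eval (fun j => (y j : K)) f = 0}.Finite ∧
    ({y : Fin (n + 1) → ℤ | (∀ j, |y j| ≤ X) ∧ eval (fun j => (y j : K)) f = 0}.ncard : ℝ) ≤
      k * (2 * X + 1) ^ n := by
  classical
  have hinj : Function.Injective (fun z : ℤ => (z : K)) := Int.cast_injective
  set S : Finset K := (Icc (-(X : ℤ)) X).image (fun z : ℤ => (z : K)) with hS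
  have hScard : S.card = 2 * X + 1 := by
    rw [hS, Finset.card_image_of_injective _ hinj, Int.card_Icc]
    omega
  set A : Finset (Fin (n + 1) → ℤ) := (Fintype.piFinset fun _ => Icc (-(X : ℤ)) X).filter
    (fun y => eval (fun j => (y j : K)) f = 0) with hA
  have hset : {y : Fin (n + 1) → ℤ | (∀ j, |y j| ≤ X) ∧ eval (fun j => (y j : K)) f = 0} =
      (A : Set (Fin (n + 1) → ℤ)) := by
    ext y
    rw [hA, Finset.mem_coe, Finset.mem_filter, Fintype.mem_piFinset]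
    simp only [Finset.mem_Icc, Set.mem_ofPred_eq, abs_le]
  rw [hset]
  refine ⟨A.finite_toSet, ?_⟩
  rw [Set.ncard_coe_finset]
  have hle : A.card ≤ #{x ∈ Fintype.piFinset fun _ : Fin (n + 1) => S | eval x f = 0} := by
    refine Finset.card_le_card_of_injOn (fun y j => (y j : K)) ?_ ?_
    · intro y hy
      rw [Finset.mem_coe, hA, Finset.mem_filter, Fintype.mem_piFinset] at hy
      rw [Finset.mem_coe, Finset.mem_filter, Fintype.mem_piFinset]
      exact ⟨fun j => Finset.mem_image.2 ⟨y j, hy.1 j, rfl⟩, hy.2⟩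
    · intro y _ z _ h
      funext j
      exact hinj (congrFun h j)
  have hsz := schwartz_zippel_totalDegree hf S
  rw [hScard, hk.totalDegree hf] at hsz
  have hpos : (0 : ℚ≥0) < ((2 * X + 1 : ℕ) : ℚ≥0) := by positivity
  rw [div_le_div_iff₀ (by positivity) hpos] at hsz
  have h2 : (#{x ∈ Fintype.piFinset fun _ : Fin (n + 1) => S | eval x f = 0} : ℚ≥0) ≤
      (k : ℚ≥0) * ((2 * X + 1 : ℕ) : ℚ≥0) ^ n := by
    rw [pow_succ, ← mul_assoc] at hsz
    exact le_of_mul_le_mul_right hsz hpos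
  have h3 : #{x ∈ Fintype.piFinset fun _ : Fin (n + 1) => S | eval x f = 0} ≤ k * (2 * X + 1) ^ n := by
    exact_mod_cast h2
  have h4 : A.card ≤ k * (2 * X + 1) ^ n := hle.trans h3
  exact_mod_cast h4

end height

theorem eval_smul_homog {K : Type} [Field K] {n k : ℕ} {f : MvPolynomial (Fin (n + 1)) K}
    (hk : f.IsHomogeneous k) (a : K) (y : Fin (n + 1) → K) :
    eval (a • y) f = a ^ k * eval y f := by
  rw [eval_eq, eval_eq, Finset.mul_sum]
  refine Finset.sum_congr rfl fun d hd => ?_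
  have h1 : ∑ i ∈ d.support, d i = k := by
    have h2 := hk (mem_support_iff.1 hd)
    rw [Finsupp.weight_apply, Finsupp.sum] at h2
    simpa using h2
  simp only [Pi.smul_apply, smul_eq_mul, mul_pow, Finset.prod_mul_distrib]
  rw [Finset.prod_pow_eq_pow_sum, h1]
  ring

/-- the points of `ℙ ^ n (K)` in a set which up to height `B` is contained in `C B ^ ε` hypersurfaces of degree `k` -/
def OnFewHypersurfaces {K : Type} [Field K] [NumberField K] {n : ℕ} (k : ℕ)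
    (Bad : Set (Projectivization K (Fin (n + 1) → K))) : Prop :=
  ∀ ε : ℝ, 0 < ε → ∃ C : ℝ, ∀ B : ℝ, 1 ≤ B → ∃ FF : Finset (MvPolynomial (Fin (n + 1)) K),
    (FF.card : ℝ) ≤ C * B ^ ε ∧ (∀ f ∈ FF, f ≠ 0 ∧ f.IsHomogeneous k) ∧
    ∀ y ∈ Bad, y.mulHeight ≤ B → ∃ f ∈ FF, eval y.rep f = 0

theorem cube {K : Type} [Field K] [NumberField K] {n k : ℕ}
    {Bad : Set (Projectivization K (Fin (n + 1) → K))} (H : OnFewHypersurfaces k Bad)
    {v : ℕ → ℝ} {τ θ : ℝ} (hv : ∀ m, 1 ≤ v m) (hτ : 0 ≤ τ) (hE : ExpLe v τ) (hθ : θ < 1) :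
    ∃ E : Set (Fin (n + 1) → ℝ), dimH E ≤ ENNReal.ofReal (((n : ℝ) + τ) / (1 - θ)) ∧
      ∀ α : Fin (n + 1) → ℝ, α ∉ E → ∃ k₀ : ℕ, ∀ m : ℕ, k₀ ≤ m → ∀ (y : Fin (n + 1) → ℤ)
        (hy : (fun j => (y j : K)) ≠ 0), (∀ j, |(y j : ℝ) - α j * v m| ≤ (v m) ^ θ) →
          Projectivization.mk K (fun j => (y j : K)) hy ∉ Bad := by
  classical
  obtain ⟨E, hE1, hE2⟩ := Pool.Agent.X174.windowsVec
    {y : Fin (n + 1) → ℤ | ∃ hy : (fun j => (y j : K)) ≠ 0,
      Projectivization.mk K (fun j => (y j : K)) hy ∈ Bad}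
    (fun y j => ((y j : ℤ) : ℝ)) hv hτ hE (Nat.cast_nonneg n) hθ (by
      intro ε hε
      have hd : 0 < totalWeight K := totalWeight_pos K
      have hd' : (0 : ℝ) < (totalWeight K : ℝ) := by exact_mod_cast hd
      obtain ⟨C, hC⟩ := H (ε / totalWeight K) (by positivity)
      refine ⟨|C| * (k * 3 ^ n), fun X hX => ?_⟩
      have hX0 : 0 < X := by linarith
      have hB : 1 ≤ X ^ totalWeight K := one_le_pow₀ hX
      obtain ⟨FF, h1, h2, h3⟩ := hC _ hB
      set Z : MvPolynomial (Fin (n + 1)) K → Set (Fin (n + 1) → ℤ) := fun f =>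
        {y : Fin (n + 1) → ℤ | (∀ j, |y j| ≤ (⌊X⌋₊ : ℤ)) ∧ eval (fun j => (y j : K)) f = 0} with hZ
      have hsub : {y | y ∈ {y : Fin (n + 1) → ℤ | ∃ hy : (fun j => (y j : K)) ≠ 0,
          Projectivization.mk K (fun j => (y j : K)) hy ∈ Bad} ∧ ∀ j, |((y j : ℤ) : ℝ)| ≤ X} ⊆
          ⋃ f ∈ FF, Z f := by
        rintro y ⟨⟨hy0, hy⟩, hyX⟩
        have h4 : (Projectivization.mk K (fun j => (y j : K)) hy0).mulHeight ≤ X ^ totalWeight K := by
          rw [Projectivization.mulHeight_mk]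
          exact height_ints y X hy0 hyX
        obtain ⟨f, hf, h5⟩ := h3 _ hy h4
        refine Set.mem_iUnion₂.2 ⟨f, hf, fun j => ?_, ?_⟩
        · have h6 : ((y j).natAbs : ℝ) ≤ X := by
            rw [Nat.cast_natAbs, Int.cast_abs]
            exact hyX j
          have h7 := Nat.le_floor h6
          rw [Int.abs_eq_natAbs]
          exact_mod_cast h7
        · obtain ⟨a, ha⟩ := Projectivization.exists_smul_eq_mk_rep K (fun j => (y j : K)) hy0
          rw [← ha] at h5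
          have h6 := eval_smul_homog (h2 f hf).2 (a : K) (fun j => (y j : K))
          have h7 : ((a : K) • fun j => (y j : K)) = a • fun j => (y j : K) := rfl
          rw [h7, h5] at h6
          rcases mul_eq_zero.1 h6.symm with h8 | h8
          · exact absurd h8 (pow_ne_zero _ a.ne_zero)
          · exact h8
      have hfin : (⋃ f ∈ FF, Z f).Finite :=
        FF.finite_toSet.biUnion fun f hf => (zeros_le ⌊X⌋₊ f (h2 f hf).1 (h2 f hf).2).1
      refine ⟨hfin.subset hsub, ?_⟩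
      have h4 : ((⋃ f ∈ FF, Z f).ncard : ℝ) ≤ (FF.card : ℝ) * (k * (2 * X + 1) ^ n) := by
        have h5 : (⋃ f ∈ FF, Z f).ncard ≤ ∑ f ∈ FF, (Z f).ncard := Finset.set_ncard_biUnion_le FF Z
        have h6 : ((∑ f ∈ FF, (Z f).ncard : ℕ) : ℝ) ≤ ∑ _f ∈ FF, (k * (2 * X + 1) ^ n : ℝ) := by
          push_cast
          refine Finset.sum_le_sum fun f hf => ?_
          refine ((zeros_le ⌊X⌋₊ f (h2 f hf).1 (h2 f hf).2).2).trans ?_
          have h7 : (⌊X⌋₊ : ℝ) ≤ X := Nat.floor_le hX0.le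
          gcongr
        rw [Finset.sum_const, nsmul_eq_mul] at h6
        calc ((⋃ f ∈ FF, Z f).ncard : ℝ) ≤ ((∑ f ∈ FF, (Z f).ncard : ℕ) : ℝ) := by exact_mod_cast h5
          _ ≤ _ := h6
      have h5 : (({y | y ∈ {y : Fin (n + 1) → ℤ | ∃ hy : (fun j => (y j : K)) ≠ 0,
          Projectivization.mk K (fun j => (y j : K)) hy ∈ Bad} ∧
            ∀ j, |((y j : ℤ) : ℝ)| ≤ X}.ncard : ℕ) : ℝ) ≤ ((⋃ f ∈ FF, Z f).ncard : ℝ) := by
        exact_mod_cast Set.ncard_le_ncard hsub hfin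
      refine h5.trans (h4.trans ?_)
      have h6 : (X ^ totalWeight K) ^ (ε / totalWeight K) = X ^ ε := by
        rw [← Real.rpow_natCast, ← Real.rpow_mul hX0.le]
        congr 1
        field_simp
      rw [h6] at h1
      have h7 : (FF.card : ℝ) ≤ |C| * X ^ ε :=
        h1.trans (mul_le_mul_of_nonneg_right (le_abs_self C) (Real.rpow_nonneg hX0.le _))
      have h8 : (2 * X + 1) ^ n ≤ (3 * X) ^ n := pow_le_pow_left₀ (by linarith) (by linarith) n
      calc (FF.card : ℝ) * (k * (2 * X + 1) ^ n) ≤ (|C| * X ^ ε) * (k * (3 * X) ^ n) := by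
            refine mul_le_mul h7 (mul_le_mul_of_nonneg_left h8 (Nat.cast_nonneg k)) (by positivity)
              (by positivity)
        _ = |C| * (k * 3 ^ n) * X ^ ((n : ℝ) + ε) := by
            rw [Real.rpow_add hX0, Real.rpow_natCast, mul_pow]
            ring)
  refine ⟨E, hE1, fun α hα => ?_⟩
  obtain ⟨k₀, hk₀⟩ := hE2 α hα
  exact ⟨k₀, fun m hm y hy hcube hbad => hk₀ m hm y ⟨hy, hbad⟩ hcube⟩

/-- the same for countably many situations at once -/
theorem cubes {ι : Type} [Countable ι] {n : ℕ} (F : ι → NF) (k : ι → ℕ)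
    (Bad : ∀ i, Set (Projectivization (F i).1 (Fin (n + 1) → (F i).1)))
    (H : ∀ i, OnFewHypersurfaces (k i) (Bad i))
    {v : ℕ → ℝ} {τ θ : ℝ} (hv : ∀ m, 1 ≤ v m) (hτ : 0 ≤ τ) (hE : ExpLe v τ) (hθ : θ < 1) :
    ∃ E : Set (Fin (n + 1) → ℝ), dimH E ≤ ENNReal.ofReal (((n : ℝ) + τ) / (1 - θ)) ∧
      ∀ α : Fin (n + 1) → ℝ, α ∉ E → ∀ i, ∃ k₀ : ℕ, ∀ m : ℕ, k₀ ≤ m → ∀ (y : Fin (n + 1) → ℤ)
        (hy : (fun j => (y j : (F i).1)) ≠ 0), (∀ j, |(y j : ℝ) - α j * v m| ≤ (v m) ^ θ) →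
          Projectivization.mk (F i).1 (fun j => (y j : (F i).1)) hy ∉ Bad i := by
  choose E h1 h2 using fun i => cube (H i) hv hτ hE hθ
  refine ⟨⋃ i, E i, ?_, fun a haE i => h2 i a fun h => haE (Set.mem_iUnion.2 ⟨i, h⟩)⟩
  rw [dimH_iUnion]
  exact iSup_le h1

end Pool.Agent.X134.Win
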