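import Mathlib
import Pool.Agent.X134.Win.NearC

/-!
# Approximations of a point of a metric space, for countably many properties with a level
-/

set_option autoImplicit false

namespace Pool.Agent.X134.Win

open MeasureTheory Filter Topology
open scoped ENNReal NNReal

theorem targets_c {X : Type} [MetricSpace X] [MeasurableSpace X] [BorelSpace X] {ι : Type} [Countable ι]
    {T : ι → Type} (f : ∀ i, T i → X) (h : ∀ i, T i → ℝ) (Good : ∀ i, ℕ → T i → Prop)
    (H : ∀ i, FewBad (h i) (Good i)) :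
    ∃ E : Set X, dimH E = 0 ∧ ∀ x : X, x ∉ E → ∀ i, ∀ η : ℝ, 0 < η → ∀ ε : ℝ, 0 < ε → ∃ h₀ : ℝ, ∀ y : T i,
      h₀ ≤ h i y → dist (f i y) x ≤ h i y ^ (-η) → ∃ N : ℕ, 1 ≤ N ∧ (N : ℝ) ≤ h i y ^ ε ∧ Good i N y := by
  choose E hE1 hE2 using fun i => targetsX (f i) (h i) (Good i) (H i)
  refine ⟨⋃ i, E i, by rw [dimH_iUnion]; simp [hE1], fun x hx i => ?_⟩
  exact hE2 i x (fun h => hx (Set.mem_iUnion.2 ⟨i, h⟩))

end Pool.Agent.X134.Win
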