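import Mathlib
import Pool.Agent.X134.Win.Cube
import Pool.Agent.X134.Win.TargC

/-!
# Few exceptions on the projective line
-/

set_option autoImplicit false

namespace Pool.Agent.X134.Win

open MvPolynomial

/-- the zeros on the projective line of a form of degree `k` -/
theorem zeros_line {K : Type} [Field K] [Infinite K] (k : ℕ) (g : MvPolynomial (Fin (1 + 1)) K) (hg : g ≠ 0)
    (hh : g.IsHomogeneous k) :
    {y : Projectivization K (Fin (1 + 1) → K) | eval y.rep g = 0}.Finite ∧
    {y : Projectivization K (Fin (1 + 1) → K) | eval y.rep g = 0}.ncard ≤ k + 1 := by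
  classical
  obtain ⟨p, hp⟩ : ∃ p : Polynomial K, p = aeval ![1, Polynomial.X] g := ⟨_, rfl⟩
  have heval : ∀ t : K, p.eval t = eval ![1, t] g := by
    intro t
    rw [hp, ← Polynomial.coe_evalRingHom, ← AlgHom.coe_toRingHom (aeval _)]
    rw [← RingHom.comp_apply]
    have : (Polynomial.evalRingHom t).comp ((aeval ![1, Polynomial.X] : MvPolynomial (Fin (1+1)) K →ₐ[K] Polynomial K) :
        MvPolynomial (Fin (1+1)) K →+* Polynomial K) = eval ![1, t] := by
      refine MvPolynomial.ringHom_ext (fun c => ?_) (fun i => ?_)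
      · simp
      · fin_cases i <;> simp
    rw [this]
  have hscale : ∀ x : Fin (1 + 1) → K, x 0 ≠ 0 → eval x g = x 0 ^ k * p.eval (x 1 / x 0) := by
    intro x hx
    rw [heval, ← eval_smul_homog hh]
    congr 1
    congr 1
    funext i
    fin_cases i
    · simp
    · simp only [Pi.smul_apply, smul_eq_mul]
      show x 1 = x 0 * (x 1 / x 0)
      field_simp
  have hp0 : p ≠ 0 := by
    intro h0
    have h1 : X 0 * g = 0 := by
      refine MvPolynomial.funext fun x => ?_
      rw [map_mul, eval_X, map_zero]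
      by_cases hx : x 0 = 0
      · rw [hx, zero_mul]
      · rw [hscale x hx, h0]
        simp
    rcases mul_eq_zero.1 h1 with h2 | h2
    · exact X_ne_zero _ h2
    · exact hg h2
  have hdeg : p.natDegree ≤ k := by
    rw [hp, aeval_def, eval₂_eq]
    refine Polynomial.natDegree_sum_le_of_forall_le _ _ fun d hd => ?_
    have h1 : ∑ i ∈ d.support, d i = k := by
      have h2 := hh (mem_support_iff.1 hd)
      rw [Finsupp.weight_apply, Finsupp.sum] at h2
      simpa using h2
    refine (Polynomial.natDegree_mul_le).trans ?_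
    rw [show (algebraMap K (Polynomial K)) (coeff d g) = Polynomial.C (coeff d g) from rfl, Polynomial.natDegree_C, zero_add]
    refine (Polynomial.natDegree_prod_le _ _).trans ?_
    rw [← h1]
    refine Finset.sum_le_sum fun i _ => ?_
    refine (Polynomial.natDegree_pow_le).trans ?_
    have h3 : ((![1, Polynomial.X] : Fin (1 + 1) → Polynomial K) i).natDegree ≤ 1 := by
      fin_cases i
      · simp
      · simp
    calc d i * _ ≤ d i * 1 := Nat.mul_le_mul_left _ h3
      _ = d i := mul_one _
  obtain ⟨φ, hφ⟩ : ∃ φ : Projectivization K (Fin (1 + 1) → K) → Option K,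
      ∀ y, φ y = if y.rep 0 = 0 then none else some (y.rep 1 / y.rep 0) := ⟨fun y => if y.rep 0 = 0 then none else some (y.rep 1 / y.rep 0), fun _ => rfl⟩
  have hinj : Function.Injective φ := by
    intro y z hyz
    rw [hφ, hφ] at hyz
    have hy := y.rep_nonzero
    have hz := z.rep_nonzero
    rw [← y.mk_rep, ← z.mk_rep, Projectivization.mk_eq_mk_iff']
    by_cases h0 : y.rep 0 = 0
    · have h0' : z.rep 0 = 0 := by
        by_contra h
        rw [if_pos h0, if_neg h] at hyz
        exact absurd hyz (by simp)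
      have h1 : z.rep 1 ≠ 0 := by
        intro h
        apply hz
        funext i
        fin_cases i
        · exact h0'
        · exact h
      refine ⟨y.rep 1 / z.rep 1, ?_⟩
      funext i
      fin_cases i
      · show y.rep 1 / z.rep 1 * z.rep 0 = y.rep 0
        rw [h0, h0', mul_zero]
      · show y.rep 1 / z.rep 1 * z.rep 1 = y.rep 1
        rw [div_mul_cancel₀ _ h1]
    · have h0' : z.rep 0 ≠ 0 := by
        intro h
        rw [if_neg h0, if_pos h] at hyz
        exact absurd hyz (by simp)
      rw [if_neg h0, if_neg h0', Option.some_inj] at hyz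
      refine ⟨y.rep 0 / z.rep 0, ?_⟩
      funext i
      fin_cases i
      · show y.rep 0 / z.rep 0 * z.rep 0 = y.rep 0
        rw [div_mul_cancel₀ _ h0']
      · show y.rep 0 / z.rep 0 * z.rep 1 = y.rep 1
        rw [div_eq_div_iff h0 h0'] at hyz
        rw [div_mul_eq_mul_div, div_eq_iff h0', hyz]
        ring
  have hsub : φ '' {y | eval y.rep g = 0} ⊆ ((insert none (p.roots.toFinset.image some) : Finset (Option K)) : Set (Option K)) := by
    rintro _ ⟨y, hy, rfl⟩
    rw [hφ]
    simp only [Finset.coe_insert, Finset.coe_image, Set.mem_insert_iff, Set.mem_image, Finset.mem_coe,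
      Multiset.mem_toFinset]
    by_cases h0 : y.rep 0 = 0
    · left
      rw [if_pos h0]
    · right
      refine ⟨y.rep 1 / y.rep 0, ?_, by rw [if_neg h0]⟩
      rw [Polynomial.mem_roots hp0, Polynomial.IsRoot.def]
      have h1 : eval y.rep g = 0 := hy
      rw [hscale _ h0] at h1
      rcases mul_eq_zero.1 h1 with h2 | h2
      · exact absurd h2 (pow_ne_zero _ h0)
      · exact h2
  have hfin : (φ '' {y | eval y.rep g = 0}).Finite := (Finset.finite_toSet _).subset hsub
  refine ⟨hfin.of_finite_image hinj.injOn, ?_⟩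
  rw [← Set.ncard_image_of_injective _ hinj]
  refine (Set.ncard_le_ncard hsub (Finset.finite_toSet _)).trans ?_
  rw [Set.ncard_coe_finset]
  refine (Finset.card_insert_le _ _).trans ?_
  refine Nat.add_le_add_right (Finset.card_image_le.trans ((Multiset.toFinset_card_le _).trans ?_)) 1
  exact (Polynomial.card_roots' p).trans hdeg

/-- on the projective line, few hypersurfaces contain few points -/
theorem fewBad_line {K : Type} [Field K] [NumberField K] (k : ℕ)
    (Bad : Set (Projectivization K (Fin (1 + 1) → K))) (H : OnFewHypersurfaces k Bad) :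
    FewBad (fun y : Projectivization K (Fin (1 + 1) → K) => y.mulHeight) (fun _ y => y ∉ Bad) := by
  classical
  have : Infinite K := CharZero.infinite K
  refine fewBad_of _ _ fun ε hε => ?_
  obtain ⟨C, hC⟩ := H ε hε
  refine ⟨(k + 1) * C, fun B hB => ?_⟩
  obtain ⟨FF, h1, h2, h3⟩ := hC B hB
  refine ⟨FF.attach.biUnion fun f => (zeros_line k f.1 (h2 f.1 f.2).1 (h2 f.1 f.2).2).1.toFinset, ?_, ?_⟩
  · calc ((FF.attach.biUnion fun f => (zeros_line k f.1 (h2 f.1 f.2).1 (h2 f.1 f.2).2).1.toFinset).card : ℝ)
        ≤ ((∑ f ∈ FF.attach, (zeros_line k f.1 (h2 f.1 f.2).1 (h2 f.1 f.2).2).1.toFinset.card : ℕ) : ℝ) := by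
          exact_mod_cast Finset.card_biUnion_le
      _ ≤ ((∑ _f ∈ FF.attach, (k + 1) : ℕ) : ℝ) := by
          refine Nat.cast_le.2 (Finset.sum_le_sum fun f _ => ?_)
          rw [← Set.ncard_eq_toFinset_card _ (zeros_line k f.1 (h2 f.1 f.2).1 (h2 f.1 f.2).2).1]
          exact (zeros_line k f.1 (h2 f.1 f.2).1 (h2 f.1 f.2).2).2
      _ = (k + 1) * FF.card := by
          rw [Finset.sum_const, Finset.card_attach, smul_eq_mul]
          push_cast
          ring
      _ ≤ (k + 1) * (C * B ^ ε) := mul_le_mul_of_nonneg_left h1 (by positivity)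
      _ = (k + 1) * C * B ^ ε := by ring
  · intro y hy hyZ hyBad
    obtain ⟨f, hf, hf0⟩ := h3 y hyBad hy
    refine hyZ (Finset.mem_biUnion.2 ⟨⟨f, hf⟩, Finset.mem_attach _ _, ?_⟩)
    rw [Set.Finite.mem_toFinset]
    exact hf0

end Pool.Agent.X134.Win
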